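import Mathlib
set_option autoImplicit false

/-!
Discrete valuations, trivial on the constants, of a function field of one variable.
-/

namespace Pool.Agent.Helper537_Sym

open scoped WithZero IntermediateField.algebraAdjoinAdjoin
open IsDedekindDomain Polynomial

/-- A transcendental element of a function field of one variable has a zero. -/
theorem exists_val {L : Type*} [Field L] [Algebra ℚ L] (w : L) (hw : Transcendental ℚ w)
    [FiniteDimensional (IntermediateField.adjoin ℚ {w}) L] :
    ∃ v : Valuation L ℤᵐ⁰, Function.Surjective v ∧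
      (∀ q : ℚ, q ≠ 0 → v (algebraMap ℚ L q) = 1) ∧ v w < 1 := by
  let B := Algebra.adjoin ℚ {w}
  let K := IntermediateField.adjoin ℚ {w}
  let e : ℚ[X] ≃ₐ[ℚ] B := Polynomial.algEquivOfTranscendental ℚ w hw
  have hpid : IsPrincipalIdealRing B :=
    IsPrincipalIdealRing.of_surjective e.toRingHom e.surjective
  have hsep : Algebra.IsSeparable K L := inferInstance
  have hded : IsDedekindDomain (integralClosure B L) :=
    integralClosure.isDedekindDomain B K L
  have hfrac : IsFractionRing (integralClosure B L) L :=
    integralClosure.isFractionRing_of_finite_extension K L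
  have hwB : w ∈ B := Algebra.self_mem_adjoin_singleton ℚ w
  have heX : e X = ⟨w, hwB⟩ := Polynomial.algEquivOfTranscendental_apply_X ℚ w hw
  have hnu : (⟨w, hwB⟩ : B) ∈ nonunits B := by
    intro hu
    rw [← heX] at hu
    have h1 := hu.map e.symm
    rw [AlgEquiv.symm_apply_apply] at h1
    exact Polynomial.not_isUnit_X h1
  obtain ⟨m, hm, hwm⟩ := exists_max_ideal_of_mem_nonunits hnu
  obtain ⟨Q, hQ, hQm⟩ := Ideal.exists_ideal_over_maximal_of_isIntegral
    (S := integralClosure B L) m (by
      rw [(RingHom.injective_iff_ker_eq_bot _).1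
        (FaithfulSMul.algebraMap_injective B (integralClosure B L))]
      exact bot_le)
  have hw0 : w ≠ 0 := by
    rintro rfl
    exact hw (isAlgebraic_zero)
  have hwQ : algebraMap B (integralClosure B L) ⟨w, hwB⟩ ∈ Q := by
    rw [← hQm] at hwm
    exact hwm
  have hQ0 : Q ≠ ⊥ := by
    rintro rfl
    rw [Ideal.mem_bot] at hwQ
    have h2 := congrArg (fun z : integralClosure B L => (z : L)) hwQ
    exact hw0 h2
  let P : HeightOneSpectrum (integralClosure B L) := ⟨Q, hQ.isPrime, hQ0⟩
  refine ⟨P.valuation L, P.valuation_surjective L, ?_, ?_⟩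
  · have h1 : ∀ q : ℚ, P.valuation L (algebraMap ℚ L q) ≤ 1 := by
      intro q
      exact P.valuation_le_one (K := L) (algebraMap B (integralClosure B L) (algebraMap ℚ B q))
    intro q hq
    refine le_antisymm (h1 q) ?_
    have h2 := h1 q⁻¹
    have h3 : P.valuation L (algebraMap ℚ L q) * P.valuation L (algebraMap ℚ L q⁻¹) = 1 := by
      rw [← map_mul, ← map_mul, mul_inv_cancel₀ hq, map_one, map_one]
    calc (1 : ℤᵐ⁰) = P.valuation L (algebraMap ℚ L q) * P.valuation L (algebraMap ℚ L q⁻¹) :=
          h3.symm
      _ ≤ P.valuation L (algebraMap ℚ L q) * 1 := mul_le_mul_right h2 _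
      _ = _ := mul_one _
  · exact (P.valuation_lt_one_iff_mem (K := L)
      (algebraMap B (integralClosure B L) ⟨w, hwB⟩)).2 hwQ

end Pool.Agent.Helper537_Sym
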