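import Pool.Agent.Helper537_Sym.Incl
import Pool.Agent.Helper537_Sym.Val
set_option autoImplicit false

/-!
The orders of `z` and the `x - b_m` at the discrete valuations of the function field of the curve
`z + 1/z = t + lam ∏ (x - b_m)` are linearly independent.
-/

namespace Pool.Agent.Helper537_Sym

open Polynomial

open scoped WithZero

open Pool.Agent.TH826.MK (KQ symb unitPart Unramified)

open Pool.Agent.TH826.HD

variable {g : ℕ} {b : Fin (g + 1) → ℚ} {F : ℚ[X]} {lam : ℚ} {t : ℤ}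
  {L : Type*} [Field L] {f : POpen F b →+* L}

theorem exists_val_curve (hf : Inj f)
    (hfr : ∀ l : L, ∃ a a' : PRing F, l = f (toP F b a) / f (toP F b a')) (w : L)
    (hw : ∃ c : ℚ, w = xP f - cP f c ∨ w = (xP f - cP f c)⁻¹) :
    ∃ v : Valuation L ℤᵐ⁰, Function.Surjective v ∧ (∀ q : ℚ, q ≠ 0 → v (cP f q) = 1) ∧
      v w < 1 := by
  let _ : Algebra ℚ L := (cP f).toAlgebra
  have halg : algebraMap ℚ L = cP f := rfl
  obtain ⟨c, hc⟩ := hw
  have htx : Transcendental ℚ (xP f - cP f c) := by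
    intro h
    obtain ⟨p, hp, hp0⟩ := h
    have h1 : f (toP F b (ppol F (p.comp (X - C c)))) = 0 := by
      rw [map_ppol, eval₂_comp, eval₂_sub, eval₂_X, eval₂_C]
      exact hp0
    have h2 := hf _ h1
    have h3 : p.comp (X - C c) = 0 := by
      by_contra hne
      exact ppol_ne_zero hne h2
    have h4 : (p.comp (X - C c)).comp (X + C c) = p := by
      rw [comp_assoc]
      simp
    rw [h3, zero_comp] at h4
    exact hp h4.symm
  have hwt : Transcendental ℚ w := by
    rcases hc with rfl | rfl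
    · exact htx
    · intro h
      apply htx
      have h2 := h.inv
      rwa [inv_inv] at h2
  set K := IntermediateField.adjoin ℚ {w} with hK
  have hwK : w ∈ K := IntermediateField.mem_adjoin_simple_self ℚ w
  have hxK : xP f ∈ K := by
    have h1 : xP f - cP f c ∈ K := by
      rcases hc with h | h
      · rwa [← h]
      · have : xP f - cP f c = w⁻¹ := by rw [h, inv_inv]
        rw [this]
        exact inv_mem hwK
    have h2 : cP f c ∈ K := K.algebraMap_mem c
    have h3 := add_mem h1 h2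
    rwa [sub_add_cancel] at h3
  set x' : K := ⟨xP f, hxK⟩ with hx'
  have hev : ∀ P : ℚ[X], P.eval₂ (cP f) (xP f) = algebraMap K L (aeval x' P) := by
    intro P
    rw [← aeval_algebraMap_apply]
    rfl
  have hint : IsIntegral K (zP f) := by
    refine ⟨X ^ 2 - C (aeval x' F) * X + 1, ?_, ?_⟩
    · monicity!
    · simp only [eval₂_add, eval₂_sub, eval₂_mul, eval₂_X, eval₂_C, eval₂_one, eval₂_X_pow]
      rw [← hev]
      have := zP_eq f
      linear_combination this
  have htop : IntermediateField.adjoin K {zP f} = ⊤ := by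
    rw [eq_top_iff]
    intro l _
    have hz : zP f ∈ IntermediateField.adjoin K {zP f} :=
      IntermediateField.mem_adjoin_simple_self K (zP f)
    have hel : ∀ a : PRing F, f (toP F b a) ∈ IntermediateField.adjoin K {zP f} := by
      intro a
      obtain ⟨P, Q, rfl⟩ := exists_el a
      unfold el
      rw [map_add, map_add, map_mul, map_mul, map_ppol, map_ppol, hev, hev]
      exact add_mem (IntermediateField.algebraMap_mem _ _)
        (mul_mem (IntermediateField.algebraMap_mem _ _) hz)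
    obtain ⟨a, a', rfl⟩ := hfr l
    exact div_mem (hel a) (hel a')
  have hfin : FiniteDimensional K L := by
    have h1 : FiniteDimensional K (IntermediateField.adjoin K {zP f}) :=
      IntermediateField.adjoin.finiteDimensional hint
    rw [htop] at h1
    exact Module.Finite.equiv (IntermediateField.topEquiv (F := K) (E := L)).toLinearEquiv
  exact exists_val w hwt

section orders

variable {v : Valuation L ℤᵐ⁰} (hv : ∀ q : ℚ, q ≠ 0 → v (cP f q) = 1)

include hv

theorem v_le_one (q : ℚ) : v (cP f q) ≤ 1 := by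
  by_cases h : q = 0
  · rw [h, map_zero, map_zero]
    exact zero_le_one
  · exact (hv q h).le

theorem v_eval_le (p : ℚ[X]) {x : L} (hx : v x ≤ 1) : v (p.eval₂ (cP f) x) ≤ 1 := by
  rw [Polynomial.eval₂_eq_sum_range]
  refine Valuation.map_sum_le v fun i _ => ?_
  rw [map_mul, map_pow]
  exact mul_le_one' (v_le_one hv _) (pow_le_one' hx _)

theorem v_x_le {c : ℚ} (hc : v (xP f - cP f c) < 1) : v (xP f) ≤ 1 := by
  have e : xP f = (xP f - cP f c) + cP f c := by ring
  rw [e]
  exact (v.map_add _ _).trans (max_le hc.le (v_le_one hv c))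

theorem vz_eq_one (hx : v (xP f) ≤ 1) : v (zP f) = 1 := by
  have hPhi := v_eval_le hv F hx
  have hq := zP_eq f
  have hq0 := zP_ne_zero f
  set q := zP f with hqdef
  set P := F.eval₂ (cP f) (xP f) with hP
  rcases lt_trichotomy (v q) 1 with h | h | h
  · exfalso
    have h1 : v (q ^ 2 + 1) = 1 := by
      rw [add_comm]
      refine Valuation.map_one_add_of_lt v ?_
      rw [map_pow]
      exact pow_lt_one₀ zero_le h (by norm_num)
    rw [hq, map_mul] at h1
    have h2 : v P * v q < 1 := by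
      calc v P * v q ≤ 1 * v q := mul_le_mul_left hPhi _
        _ = v q := one_mul _
        _ < 1 := h
    exact h2.ne h1
  · exact h
  · exfalso
    have h1 : v (q ^ 2 + 1) = v q ^ 2 := by
      rw [← map_pow]
      refine Valuation.map_add_eq_of_lt_left v ?_
      rw [map_one, map_pow]
      exact one_lt_pow₀ h (by norm_num)
    rw [hq, map_mul, pow_two] at h1
    have h2 : v P = v q := mul_right_cancel₀ ((Valuation.ne_zero_iff v).2 hq0) h1
    rw [h2] at hPhi
    exact absurd h (not_lt.2 hPhi)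

theorem vx_of_lt {c : ℚ} (hc : v (xP f - cP f c) < 1) {d : ℚ} (hd : d ≠ c) :
    v (xP f - cP f d) = 1 := by
  have hne : c - d ≠ 0 := sub_ne_zero.2 (Ne.symm hd)
  have e : xP f - cP f d = cP f (c - d) + (xP f - cP f c) := by
    rw [map_sub]
    ring
  rw [e, Valuation.map_add_eq_of_lt_left v, hv _ hne]
  rw [hv _ hne]
  exact hc

theorem vz_ne_one (H : Fm b F lam t) (hx : 1 < v (xP f)) : v (zP f) ≠ 1 := by
  intro hz
  have h1 : ∀ m, v (xP f - cP f (b m)) = v (xP f) := fun m =>
    Valuation.map_sub_eq_of_lt_left v ((v_le_one hv _).trans_lt hx)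
  have h2 : 1 < v (∏ m, (xP f - cP f (b m))) := by
    rw [map_prod, Finset.prod_congr rfl fun m _ => h1 m, Finset.prod_const, Finset.card_univ,
      Fintype.card_fin]
    exact one_lt_pow₀ hx (Nat.succ_ne_zero g)
  have h3 := zP_quad f H
  have h4 : v (zP f ^ 2 - t * zP f + 1) ≤ 1 := by
    refine (v.map_add _ _).trans (max_le ((v.map_sub _ _).trans (max_le ?_ ?_)) ?_)
    · rw [map_pow, hz, one_pow]
    · rw [map_mul, hz, mul_one]
      have h5 := v_le_one hv ((t : ℤ) : ℚ)
      rwa [map_intCast] at h5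
    · rw [map_one]
  rw [h3, map_mul, map_mul, hz, mul_one, hv _ H.lam_ne, one_mul] at h4
  exact absurd h2 (not_lt.2 h4)

/-- Above an admissible `x = c` with `c` not one of the `b_m` no power of `z` is a constant. -/
theorem z_pow_ne {c : ℚ} (hc : v (xP f - cP f c) < 1) (hs : ¬ IsSquare (F.eval c ^ 2 - 4))
    (h0 : F.eval c ≠ 0) (h1 : F.eval c ≠ 1) (h1' : F.eval c ≠ -1) {n : ℕ} {r : ℚ}
    (hr : v (zP f ^ n - cP f r) < 1) : n = 0 := by
  by_contra hn
  set s : ℚ := F.eval c with hsdef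
  set p : ℚ[X] := X ^ 2 - C s * X + 1 with hp
  have hx := v_x_le hv hc
  have hz := vz_eq_one hv hx
  have hpm : p.Monic := by
    rw [hp]
    monicity!
  have hpd : p.natDegree = 2 := by
    rw [hp]
    compute_degree!
  have hirr : Irreducible p := by
    rw [hpm.irreducible_iff_roots_eq_zero_of_degree_le_three (by rw [hpd])
      (by rw [hpd]; norm_num), Multiset.eq_zero_iff_forall_notMem]
    intro y hy
    rw [mem_roots hpm.ne_zero, IsRoot.def, hp] at hy
    simp only [eval_add, eval_sub, eval_mul, eval_pow, eval_X, eval_C, eval_one] at hy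
    refine hs ⟨2 * y - s, ?_⟩
    linear_combination (-4) * hy
  -- the value of `p` at `z` is small
  have hpz : v (p.eval₂ (cP f) (zP f)) < 1 := by
    obtain ⟨Q, hQ⟩ : X - C c ∣ F - C s := by
      rw [Polynomial.dvd_iff_isRoot, Polynomial.IsRoot.def]
      simp [hsdef]
    have h2 : F.eval₂ (cP f) (xP f) - cP f s = (xP f - cP f c) * Q.eval₂ (cP f) (xP f) := by
      have h3 := congrArg (Polynomial.eval₂ (cP f) (xP f)) hQ
      rw [Polynomial.eval₂_sub, Polynomial.eval₂_mul, Polynomial.eval₂_sub,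
        Polynomial.eval₂_X, Polynomial.eval₂_C, Polynomial.eval₂_C] at h3
      exact h3
    have h4 : p.eval₂ (cP f) (zP f) = (xP f - cP f c) * Q.eval₂ (cP f) (xP f) * zP f := by
      rw [← h2, hp]
      simp only [eval₂_add, eval₂_sub, eval₂_mul, eval₂_pow, eval₂_X, eval₂_C, eval₂_one]
      have := zP_eq f
      linear_combination this
    rw [h4, map_mul, map_mul, hz, mul_one]
    exact mul_lt_one_of_lt_of_le hc (v_eval_le hv Q hx)
  have hdvd : p ∣ X ^ n - C r := by
    by_contra hnd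
    obtain ⟨a, a', hab⟩ := (hirr.coprime_iff_not_dvd).2 hnd
    have h3 := congrArg (Polynomial.eval₂ (cP f) (zP f)) hab
    rw [eval₂_add, eval₂_mul, eval₂_mul, eval₂_sub, eval₂_pow, eval₂_X, eval₂_C, eval₂_one] at h3
    have h4 : v (a.eval₂ (cP f) (zP f) * p.eval₂ (cP f) (zP f) +
        a'.eval₂ (cP f) (zP f) * (zP f ^ n - cP f r)) < 1 := by
      refine Valuation.map_add_lt v ?_ ?_
      · rw [map_mul, mul_comm]
        exact mul_lt_one_of_lt_of_le hpz (v_eval_le hv a hz.le)
      · rw [map_mul, mul_comm]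
        exact mul_lt_one_of_lt_of_le hr (v_eval_le hv a' hz.le)
    rw [h3, map_one] at h4
    exact lt_irrefl _ h4
  -- a complex root of `p`
  obtain ⟨w, hw⟩ := IsAlgClosed.exists_pow_nat_eq ((s : ℂ) ^ 2 / 4 - 1) (n := 2) (by norm_num)
  set ζ : ℂ := (s : ℂ) / 2 + w with hζ
  have hζ1 : ζ ^ 2 - s * ζ + 1 = 0 := by
    rw [hζ]
    linear_combination hw
  have hζ0 : ζ ≠ 0 := by
    intro h
    rw [h] at hζ1
    norm_num at hζ1
  have hsum : (s : ℂ) = ζ + ζ⁻¹ := by
    field_simp
    linear_combination -hζ1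
  have hroot : ∀ y : ℂ, y ^ 2 - s * y + 1 = 0 → y ^ n = r := by
    intro y hy
    obtain ⟨Q, hQ⟩ := hdvd
    have h3 := congrArg (Polynomial.eval₂ (algebraMap ℚ ℂ) y) hQ
    rw [eval₂_mul, hp] at h3
    simp only [eval₂_add, eval₂_sub, eval₂_mul, eval₂_pow, eval₂_X, eval₂_C, eval₂_one,
      eq_ratCast] at h3
    rw [hy, zero_mul, sub_eq_zero] at h3
    exact h3
  have hA := hroot ζ hζ1
  have hB := hroot ζ⁻¹ (by
    rw [hsum]
    field_simp
    ring)
  have hr2 : (r : ℂ) * r = 1 := by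
    calc (r : ℂ) * r = ζ ^ n * ζ⁻¹ ^ n := by rw [hA, hB]
      _ = 1 := by rw [← mul_pow, mul_inv_cancel₀ hζ0, one_pow]
  have hone : ζ ^ (n + n) = 1 := by rw [pow_add, hA, hr2]
  have hint : ∀ y : ℂ, y ^ (n + n) = 1 → IsIntegral ℤ y := by
    intro y hy
    refine IsIntegral.of_pow (n := n + n) (by omega) ?_
    rw [hy]
    exact isIntegral_one
  have hint2 : IsIntegral ℤ (algebraMap ℚ ℂ s) := by
    have h3 : algebraMap ℚ ℂ s = ζ + ζ⁻¹ := by
      rw [← hsum]
      rfl
    rw [h3]
    exact (hint ζ hone).add (hint ζ⁻¹ (by rw [inv_pow, hone, inv_one]))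
  have hint3 : IsIntegral ℤ s :=
    (isIntegral_algebraMap_iff (algebraMap ℚ ℂ).injective).1 hint2
  obtain ⟨m, hm⟩ := IsIntegrallyClosed.isIntegral_iff.1 hint3
  have hm' : s = (m : ℚ) := hm.symm
  have hnorm : ‖ζ‖ = 1 := by
    have h3 := congrArg norm hone
    rw [norm_pow, norm_one] at h3
    exact (pow_eq_one_iff_of_nonneg (norm_nonneg _) (by omega)).1 h3
  have hm2 : |m| ≤ 2 := by
    have h3 : ‖(m : ℂ)‖ ≤ 2 := by
      have h4 : (m : ℂ) = ζ + ζ⁻¹ := by
        rw [← hsum, hm']
        push_cast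
        rfl
      rw [h4]
      refine (norm_add_le _ _).trans ?_
      rw [norm_inv, hnorm]
      norm_num
    rw [Complex.norm_intCast] at h3
    exact_mod_cast h3
  rw [hm'] at hs h0 h1 h1'
  rw [abs_le] at hm2
  obtain ⟨h3, h4⟩ := hm2
  interval_cases m
  · exact hs ⟨0, by norm_num⟩
  · exact h1' (by norm_num)
  · exact h0 (by norm_num)
  · exact h1 (by norm_num)
  · exact hs ⟨0, by norm_num⟩

end orders

theorem nonspecial (hf : Inj f)
    (hfr : ∀ l : L, ∃ a a' : PRing F, l = f (toP F b a) / f (toP F b a'))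
    (c : {c : ℚ // Adm F b c ∧ ∀ m, b m ≠ c}) : ∃ (v : Valuation L ℤᵐ⁰) (l : Lg L),
      Function.Surjective v ∧ (∀ q : ℚˣ, v (cP f q) = 1) ∧
      (∀ a : Lˣ, v ((a : L) - 1) < 1 → l.toFun a = 0) ∧ (∀ q : ℚˣ, l.toFun (qc (cP f) q) = 0) ∧
      l.toFun (zL f) = 1 ∧ ord v (zL f) = 0 ∧ ord v (xL hf c) ≠ 0 ∧
      ∀ d : ℚ, d ≠ c → ord v (xL hf d) = 0 := by
  obtain ⟨c, hc, hcb⟩ := c
  obtain ⟨v, hvs, hv, hvc⟩ := exists_val_curve hf hfr _ ⟨c, Or.inl rfl⟩
  have hz := vz_eq_one hv (v_x_le hv hvc)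
  rcases hc with ⟨m, hm⟩ | ⟨hs, h0, h1, h1'⟩
  · exact absurd hm (hcb m)
  have hz2 : ∀ (n : ℤ) (q : ℚˣ), v (((zL f ^ n * qc (cP f) q : Lˣ) : L) - 1) < 1 → n = 0 := by
    intro n q h
    rw [Units.val_mul, Units.val_zpow_eq_zpow_val, zL_val] at h
    have hqv : ((qc (cP f) q : Lˣ) : L) = cP f q := rfl
    rw [hqv] at h
    have hq0 : (q : ℚ) ≠ 0 := q.ne_zero
    obtain ⟨k, rfl | rfl⟩ := n.eq_nat_or_neg
    · rw [zpow_natCast] at h
      have h2 : zP f ^ k - cP f (q : ℚ)⁻¹ = cP f (q : ℚ)⁻¹ * (zP f ^ k * cP f q - 1) := by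
        have h3 : cP f (q : ℚ)⁻¹ * cP f q = 1 := by
          rw [← map_mul, inv_mul_cancel₀ hq0, map_one]
        linear_combination (-zP f ^ k) * h3
      have h4 : v (zP f ^ k - cP f (q : ℚ)⁻¹) < 1 := by
        rw [h2, map_mul, hv _ (inv_ne_zero hq0), one_mul]
        exact h
      have h5 := z_pow_ne hv hvc hs h0 h1 h1' h4
      rw [h5, Nat.cast_zero]
    · rw [zpow_neg, zpow_natCast] at h
      have h2 : zP f ^ k - cP f (q : ℚ) = -(zP f ^ k * ((zP f ^ k)⁻¹ * cP f q - 1)) := by
        have h3 : zP f ^ k * (zP f ^ k)⁻¹ = 1 := mul_inv_cancel₀ (pow_ne_zero k (zP_ne_zero f))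
        linear_combination (cP f (q : ℚ)) * h3
      have h4 : v (zP f ^ k - cP f (q : ℚ)) < 1 := by
        rw [h2, Valuation.map_neg, map_mul, map_pow, hz, one_pow, one_mul]
        exact h
      have h5 := z_pow_ne hv hvc hs h0 h1 h1' h4
      rw [h5, Nat.cast_zero, neg_zero]
  obtain ⟨l, hl1, hl2, hl3⟩ := exists_lg_z v (cP f) (fun q => hv q q.ne_zero) (zL f) hz2
  refine ⟨v, l, hvs, fun q => hv q q.ne_zero, hl1, hl2, hl3, ord_of_one hz, ?_, ?_⟩
  · intro h6
    have h7 := ord_eq_zero h6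
    rw [xL_val] at h7
    exact hvc.ne h7
  · intro d hd
    exact ord_of_one (by rw [xL_val]; exact vx_of_lt hv hvc hd)

theorem orders_indep (H : Fm b F lam t) (hf : Inj f)
    (hfr : ∀ l : L, ∃ a a' : PRing F, l = f (toP F b a) / f (toP F b a'))
    (c : Option {c : ℚ // Adm F b c} →₀ ℚ)
    (hc : ∀ v : Valuation L ℤᵐ⁰, Function.Surjective v →
      (∀ q : ℚˣ, v (cP f q) = 1) → (c.sum fun j a => a * (ord v (yL hf j) : ℚ)) = 0) :
    c = 0 := by
  have h1 : ∀ d : {c : ℚ // Adm F b c}, c (some d) = 0 := by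
    intro d
    obtain ⟨v, hvs, hv, hvd⟩ := exists_val_curve hf hfr _ ⟨(d : ℚ), Or.inl rfl⟩
    have h2 := hc v hvs fun q => hv q q.ne_zero
    have hz : ord v (zL f) = 0 := ord_of_one (vz_eq_one hv (v_x_le hv hvd))
    have hx : ∀ e : ℚ, e ≠ d → ord v (xL hf e) = 0 := fun e he => ord_of_one (by
      rw [xL_val]
      exact vx_of_lt hv hvd he)
    by_contra hne
    rw [Finsupp.sum, Finset.sum_eq_single_of_mem (some d) (Finsupp.mem_support_iff.2 hne)] at h2
    · have h3 : (ord v (yL hf (some d)) : ℚ) ≠ 0 := by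
        intro h4
        have h5 : ord v (xL hf d) = 0 := by exact_mod_cast h4
        have h6 := ord_eq_zero h5
        rw [xL_val] at h6
        exact hvd.ne h6
      exact hne ((mul_eq_zero.1 h2).resolve_right h3)
    · intro j _ hj
      rcases j with _ | e
      · have e1 : ord v (yL hf none) = 0 := hz
        rw [e1, Int.cast_zero, mul_zero]
      · have e1 : ord v (yL hf (some e)) = 0 := hx e fun h => hj (by rw [Subtype.ext h])
        rw [e1, Int.cast_zero, mul_zero]
  have h2 : c none = 0 := by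
    obtain ⟨v, hvs, hv, hvm⟩ := exists_val_curve hf hfr (xP f - cP f 0)⁻¹ ⟨0, Or.inr rfl⟩
    have h2 := hc v hvs fun q => hv q q.ne_zero
    by_contra hne
    rw [Finsupp.sum, Finset.sum_eq_single_of_mem none (Finsupp.mem_support_iff.2 hne)] at h2
    · have h3 : (ord v (yL hf none) : ℚ) ≠ 0 := by
        intro h4
        have h5 : ord v (zL f) = 0 := by exact_mod_cast h4
        have h6 := ord_eq_zero h5
        rw [zL_val] at h6
        refine vz_ne_one hv H ?_ h6
        rw [map_zero, sub_zero, map_inv₀] at hvm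
        by_contra h7
        have h8 := not_lt.1 h7
        have hx0 : v (xP f) ≠ 0 := by
          intro h9
          rw [Valuation.zero_iff] at h9
          have h10 : f (toP F b (ppol F X)) = 0 := h9
          exact ppol_ne_zero X_ne_zero (hf _ h10)
        have h9 : 1 ≤ (v (xP f))⁻¹ := (one_le_inv₀ (zero_lt_iff.2 hx0)).2 h8
        exact absurd hvm (not_lt.2 h9)
      exact hne ((mul_eq_zero.1 h2).resolve_right h3)
    · intro j _ hj
      rcases j with _ | e
      · exact absurd rfl hj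
      · rw [h1 e, zero_mul]
  ext j
  rcases j with _ | d
  · exact h2
  · exact h1 d

end Pool.Agent.Helper537_Sym
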