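import Pool.Agent.Helper537_Sym.Norm
import Pool.Agent.TH826.UH.Final
set_option autoImplicit false

/-!
Points of the curve `z + 1/z = F(x)` with `|z|` transcendental, and tori in the spectrum of the
function field.
-/

namespace Pool.Agent.Helper537_Sym

open Polynomial

open Pool.Agent.TH826.MK (Torus KQ symb pairing circ norm_circ contDiff_circ)

open Pool.Agent.TH826.HD

open Pool.Agent.TH826.UH

/-- The embedding of `ℚ` into `ℂ`. -/
noncomputable def emC : ℚ →+* ℂ := algebraMap ℚ ℂ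

theorem exists_radius_tr {η : ℝ} (hη : 0 < η) :
    ∃ R : ℝ, 1 < R ∧ R + R⁻¹ < 2 + η ∧ Transcendental ℚ R := by
  obtain ⟨R₀, h1, h2⟩ := exists_radius hη
  have hd : Dense {x : ℝ | IsAlgebraic ℚ x}ᶜ := (Algebraic.countable ℚ ℝ).dense_compl ℝ
  obtain ⟨R, hR, h3, h4⟩ := hd.exists_between h1
  refine ⟨R, h3, ?_, hR⟩
  have h5 : R + R⁻¹ < R₀ + R₀⁻¹ := by
    have h6 : (0 : ℝ) < R := by linarith
    have h7 : (0 : ℝ) < R₀ := by linarith
    have h8 : R₀ + R₀⁻¹ - (R + R⁻¹) = (R₀ - R) * (R * R₀ - 1) / (R * R₀) := by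
      field_simp
      ring
    have h9 : 0 < (R₀ - R) * (R * R₀ - 1) / (R * R₀) := by
      apply div_pos
      · apply mul_pos
        · linarith
        · nlinarith
      · positivity
    linarith
  linarith

theorem transcendental_of_norm {R : ℝ} (hR : Transcendental ℚ R) {z : ℂ} (hz : ‖z‖ = R) :
    Transcendental ℚ z := by
  intro h
  apply hR
  have h1 : IsIntegral ℚ z := h.isIntegral
  have h2 : IsIntegral ℚ (starRingEnd ℂ z) :=
    h1.map ((Complex.conjAe : ℂ →ₐ[ℝ] ℂ).restrictScalars ℚ)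
  have h3 : IsIntegral ℚ ((R : ℂ) ^ 2) := by
    have h4 := h1.mul h2
    rw [Complex.mul_conj, Complex.normSq_eq_norm_sq, hz] at h4
    exact_mod_cast h4
  have h4 : IsIntegral ℚ (R : ℂ) := IsIntegral.of_pow (by norm_num) h3
  have h5 : IsIntegral ℚ (algebraMap ℝ ℂ R) := h4
  exact (isIntegral_algebraMap_iff (algebraMap ℝ ℂ).injective).1 h5 |>.isAlgebraic

theorem transcendental_x {F : ℚ[X]} {x z : ℂ} (h : z ^ 2 - F.eval₂ emC x * z + 1 = 0)
    (hz : Transcendental ℚ z) : Transcendental ℚ x := by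
  intro hx
  apply hz
  have h1 : IsIntegral ℚ x := hx.isIntegral
  have h2 : F.eval₂ emC x = aeval x F := rfl
  have h3 : IsIntegral ℚ (aeval x F) := by
    have h4 : aeval x F = ((aeval (⟨x, h1⟩ : integralClosure ℚ ℂ) F : integralClosure ℚ ℂ) : ℂ) :=
      Subalgebra.aeval_coe (integralClosure ℚ ℂ) (⟨x, h1⟩ : integralClosure ℚ ℂ) F
    rw [h4]
    exact (aeval (⟨x, h1⟩ : integralClosure ℚ ℂ) F).2
  have h5 : IsIntegral (integralClosure ℚ ℂ) z := by
    refine ⟨X ^ 2 - C (⟨aeval x F, h3⟩ : integralClosure ℚ ℂ) * X + 1, ?_, ?_⟩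
    · monicity!
    · simp only [eval₂_add, eval₂_sub, eval₂_mul, eval₂_X, eval₂_C, eval₂_one, eval₂_X_pow]
      rw [h2] at h
      exact h
  exact (isIntegral_trans z h5).isAlgebraic

theorem evB_inj {F : ℚ[X]} (hF : 0 < F.natDegree) {n : ℕ} {b : Fin n → ℚ} {x z : ℂ}
    (h : PtS emC F b x z) (hz : Transcendental ℚ z) : Function.Injective h.evB := by
  have hd := isDomain_PRing hF
  have hx := transcendental_x h.eq hz
  rw [injective_iff_map_eq_zero]
  intro r hr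
  obtain ⟨P, Q, rfl⟩ := exists_el r
  have h1 : h.evB (ppol F (nm F P Q)) = 0 := by
    rw [← el_conj, map_mul, hr, zero_mul]
  rw [h.evB_ppol] at h1
  have h2 : nm F P Q = 0 := by
    by_contra hne
    exact hx ⟨nm F P Q, hne, h1⟩
  have h3 := el_conj (F := F) P Q
  rw [h2, map_zero, mul_eq_zero] at h3
  rcases h3 with h3 | h3
  · exact h3
  · obtain ⟨h4, h5⟩ := el_eq_zero h3
    have h6 : Q = 0 := neg_eq_zero.1 h5
    rw [h6, zero_mul, add_zero] at h4
    rw [h4, h6]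
    unfold el
    rw [map_zero, zero_mul, add_zero]

theorem contDiff_evB {F : ℚ[X]} {n : ℕ} {b : Fin n → ℚ} {d : ℕ} {X Z : (Fin d → ℝ) → ℂ}
    (hX : ContDiff ℝ 2 X) (hZ : ContDiff ℝ 2 Z) (hP : ∀ θ, PtS emC F b (X θ) (Z θ))
    (r : PRing F) : ContDiff ℝ 2 fun θ => (hP θ).evB r := by
  have h := contDiff_evA hX hZ hP (toP F b r)
  simp only [PtS.evA_toP] at h
  exact h

section field

variable {F : ℚ[X]} {n : ℕ} {b : Fin n → ℚ} {L : Type*} [Field L] [Algebra (PRing F) L]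
  [IsFractionRing (PRing F) L]

theorem lift_congr {g g' : PRing F →+* ℂ} (h : g = g') (hg : Function.Injective g)
    (hg' : Function.Injective g') :
    (IsFractionRing.lift (K := L) hg : L →+* ℂ) = IsFractionRing.lift hg' := by
  subst h
  rfl

/-- A loop in the spectrum of the function field. -/
noncomputable def mkL (L : Type*) [Field L] [Algebra (PRing F) L] [IsFractionRing (PRing F) L]
    {X Z : ℝ → ℂ} (hX : ContDiff ℝ 2 X) (hZ : ContDiff ℝ 2 Z)
    (hX1 : ∀ t, X (t + 1) = X t) (hZ1 : ∀ t, Z (t + 1) = Z t)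
    (hP : ∀ t, PtS emC F b (X t) (Z t)) (hi : ∀ t, Function.Injective (hP t).evB) :
    Torus L 1 where
  e θ := IsFractionRing.lift (hi (θ 0))
  smooth h := by
    have hX' : ContDiff ℝ 2 fun θ : Fin 1 → ℝ => X (θ 0) := hX.comp (contDiff_apply ℝ ℝ 0)
    have hZ' : ContDiff ℝ 2 fun θ : Fin 1 → ℝ => Z (θ 0) := hZ.comp (contDiff_apply ℝ ℝ 0)
    obtain ⟨a, c, hc, rfl⟩ := IsFractionRing.div_surjective (PRing F) h
    have hnt : Nontrivial (PRing F) := (algebraMap (PRing F) L).domain_nontrivial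
    have hc0 : c ≠ 0 := nonZeroDivisors.ne_zero hc
    have e : (fun θ : Fin 1 → ℝ => (IsFractionRing.lift (hi (θ 0)) : L →+* ℂ)
        (algebraMap (PRing F) L a / algebraMap (PRing F) L c)) =
        fun θ => (hP (θ 0)).evB a * ((hP (θ 0)).evB c)⁻¹ := by
      funext θ
      rw [map_div₀, IsFractionRing.lift_algebraMap, IsFractionRing.lift_algebraMap,
        div_eq_mul_inv]
    rw [e]
    refine (contDiff_evB hX' hZ' (fun θ => hP (θ 0)) a).mul
      ((contDiff_evB hX' hZ' (fun θ => hP (θ 0)) c).inv fun θ => ?_)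
    intro h0
    exact hc0 ((injective_iff_map_eq_zero _).1 (hi (θ 0)) c h0)
  periodic θ i := by
    have h0 : (θ + Pi.single i 1 : Fin 1 → ℝ) 0 = θ 0 + 1 := by
      rw [Pi.add_apply, Subsingleton.elim i 0, Pi.single_eq_same]
    refine lift_congr ?_ _ _
    have key : ∀ t t' : ℝ, X t = X t' → Z t = Z t' → (hP t).evB = (hP t').evB := by
      intro t t' h1 h2
      have : ∀ (x x' z z' : ℂ) (h : PtS emC F b x z) (h' : PtS emC F b x' z'), x = x' → z = z' →
          h.evB = h'.evB := by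
        intro x x' z z' h h' e1 e2
        subst e1 e2
        rfl
      exact this _ _ _ _ (hP t) (hP t') h1 h2
    refine key _ _ ?_ ?_
    · rw [h0, hX1]
    · rw [h0, hZ1]

theorem mkL_e {X Z : ℝ → ℂ} (hX : ContDiff ℝ 2 X) (hZ : ContDiff ℝ 2 Z)
    (hX1 : ∀ t, X (t + 1) = X t) (hZ1 : ∀ t, Z (t + 1) = Z t)
    (hP : ∀ t, PtS emC F b (X t) (Z t)) (hi : ∀ t, Function.Injective (hP t).evB)
    (θ : Fin 1 → ℝ) (r : PRing F) :
    (mkL L hX hZ hX1 hZ1 hP hi).e θ (algebraMap (PRing F) L r) = (hP (θ 0)).evB r :=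
  IsFractionRing.lift_algebraMap (hi (θ 0)) r

/-- The regulator of the symbol `{z, (x - b_m) / (x - b_l)}` on a loop `(X, Z)`. -/
theorem mkL_reg {X Z : ℝ → ℂ} (hX : ContDiff ℝ 2 X) (hZ : NZ Z)
    (hX1 : ∀ t, X (t + 1) = X t) (hZ1 : ∀ t, Z (t + 1) = Z t)
    (hP : ∀ t, PtS emC F b (X t) (Z t)) (hi : ∀ t, Function.Injective (hP t).evB)
    (f : POpen F b →+* L) (hf : ∀ r, f (toP F b r) = algebraMap (PRing F) L r) (m l : Fin n) :
    (mkL L hX hZ.smooth hX1 hZ1 hP hi).reg (KQ.map 2 f (symb (pent F b m l))) =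
      pr Z (fun t => X t - emC (b m)) - pr Z (fun t => X t - emC (b l)) := by
  have nX : ∀ m, NZ fun t => X t - emC (b m) := fun m =>
    ⟨hX.sub contDiff_const, fun t => sub_ne_zero.2 ((hP t).ne m)⟩
  rw [← pr_div hZ (nX m) (nX l), ← pairing_eq_pr hZ ((nX m).div (nX l)), KQ.map_symb,
    Torus.reg_symb]
  unfold Torus.pair
  have hux : ∀ (θ : Fin 1 → ℝ) (m : Fin n), (mkL L hX hZ.smooth hX1 hZ1 hP hi).e θ
      (f (ux F b m : POpen F b)) = X (θ 0) - emC (b m) := by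
    intro θ m
    rw [coe_ux, hf, mkL_e, (hP (θ 0)).evB_ppol]
    simp
  congr 1
  funext i θ
  fin_cases i
  · show (mkL L hX hZ.smooth hX1 hZ1 hP hi).e θ (f (uz F b : POpen F b)) = Z (θ 0)
    rw [coe_uz, hf, mkL_e, (hP (θ 0)).evB_pz]
  · show (mkL L hX hZ.smooth hX1 hZ1 hP hi).e θ
      (f ((ux F b m / ux F b l : (POpen F b)ˣ) : POpen F b)) =
      (X (θ 0) - emC (b m)) / (X (θ 0) - emC (b l))
    have h1 : (mkL L hX hZ.smooth hX1 hZ1 hP hi).e θ
        (f ((ux F b m / ux F b l : (POpen F b)ˣ) : POpen F b)) *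
        (mkL L hX hZ.smooth hX1 hZ1 hP hi).e θ (f (ux F b l : POpen F b)) =
        (mkL L hX hZ.smooth hX1 hZ1 hP hi).e θ (f (ux F b m : POpen F b)) := by
      rw [← map_mul, ← map_mul, ← Units.val_mul, div_mul_cancel]
    rw [hux, hux] at h1
    rw [eq_div_iff (sub_ne_zero.2 ((hP (θ 0)).ne l))]
    exact h1

end field

end Pool.Agent.Helper537_Sym
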