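import Pool.Agent.Helper537_Sym.Span
set_option autoImplicit false

/-!
The space of the symbols of units of the ring obtained from the coordinate ring of the curve
`z + 1/z = t + lam ∏ (x - b_m)` by inverting the `x - c`, `c` admissible, is contained in the sum
of the space of the symbols with a constant entry, the space of the symbols `{z, x - c}`, where `c`
is admissible and different from the `b_m`, and the space of the symbols
`{z, (x - b_k) / (x - b_0)}`.
-/

namespace Pool.Agent.Helper537_Sym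

open Polynomial

open scoped WithZero

open Pool.Agent.TH826.MK (KQ symb unitPart Unramified)

open Pool.Agent.TH826.HD

variable {g : ℕ} {b : Fin (g + 1) → ℚ} {F : ℚ[X]} {lam : ℚ} {t : ℤ}
  {L : Type*} [Field L] {f : POpen F b →+* L} (hf : Inj f)

/-- the class of the symbol `{z, (x - b_k) / (x - b_0)}` in `K_2` of the field -/
noncomputable def ek (f : POpen F b →+* L) (k : Fin g) : KQ L 2 :=
  KQ.map 2 f (symb (pent F b k.succ 0))

theorem map_ux' (m : Fin (g + 1)) :
    Units.map (f : POpen F b →* L) (ux F b m) = xL hf (b m) := by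
  apply Units.ext
  rw [xL_val, ← map_ux]
  rfl

theorem ek_eq (k : Fin g) :
    ek f k = sy (zL f) (xL hf (b k.succ)) - sy (zL f) (xL hf (b 0)) := by
  unfold ek pent
  rw [map_sy, _root_.map_div, map_ux' hf, map_ux' hf, div_eq_mul_inv, sy_mul_right, sy_inv_right,
    sub_eq_add_neg]
  rfl

/-- the space of the symbols `{z, (x - b_k) / (x - b_0)}` -/
noncomputable def EL (f : POpen F b →+* L) : Submodule ℚ (KQ L 2) :=
  Submodule.span ℚ (Set.range (ek f))

/-- the map `a ↦ ∑_c a_c {z, x - c}`, where `c` is admissible and different from the `b_m` -/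
noncomputable def nsm : ({c : ℚ // Adm F b c ∧ ∀ m, b m ≠ c} →₀ ℚ) →ₗ[ℚ] KQ L 2 :=
  Finsupp.linearCombination ℚ fun c => sy (zL f) (xL hf c)

/-- the space of the symbols `{z, x - c}`, where `c` is admissible and different from the `b_m` -/
noncomputable def NS : Submodule ℚ (KQ L 2) := LinearMap.range (nsm hf)

/-- the sum of the three spaces -/
noncomputable def Gs : Submodule ℚ (KQ L 2) := F1 (cP f) (yL hf) ⊔ (NS hf ⊔ EL f)

theorem f1_le : F1 (cP f) (yL hf) ≤ Gs hf := le_sup_left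

theorem ek_mem (k : Fin g) : ek f k ∈ Gs hf :=
  (le_sup_right : NS hf ⊔ EL f ≤ Gs hf) ((le_sup_right : EL f ≤ NS hf ⊔ EL f)
    (Submodule.subset_span ⟨k, rfl⟩))

theorem ns_mem {c : ℚ} (hc : Adm F b c) (hb : ∀ m, b m ≠ c) : sy (zL f) (xL hf c) ∈ Gs hf := by
  refine (le_sup_right : NS hf ⊔ EL f ≤ Gs hf) ((le_sup_left : NS hf ≤ NS hf ⊔ EL f) ?_)
  refine ⟨Finsupp.single ⟨c, hc, hb⟩ 1, ?_⟩
  unfold nsm
  rw [Finsupp.linearCombination_single, one_smul]

theorem adm_b (m : Fin (g + 1)) : Adm F b (b m) := Or.inl ⟨m, rfl⟩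

theorem zP_quad (f : POpen F b →+* L) (H : Fm b F lam t) :
    zP f ^ 2 - t * zP f + 1 = cP f lam * (∏ m, (xP f - cP f (b m))) * zP f := by
  have h := zP_eq f
  have h2 : F.eval₂ (cP f) (xP f) = t + cP f lam * ∏ m, (xP f - cP f (b m)) := by
    have h3 := congrArg (fun p : ℚ[X] => p.eval₂ (cP f) (xP f)) H.eq
    simp only [eval₂_add, eval₂_mul, eval₂_C, eval₂_finsetProd, eval₂_sub, eval₂_X] at h3
    rw [map_intCast] at h3
    exact h3
  rw [h2] at h
  linear_combination h

theorem sum_mem (H : Fm b F lam t) :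
    ∑ m, sy (zL f) (xL hf (b m)) ∈ F1 (cP f) (yL hf) := by
  set lu : Lˣ := qc (cP f) (Units.mk0 lam H.lam_ne) with hlu
  have h1 : sy (zL f) (lu * (∏ m, xL hf (b m)) * zL f) = 0 := by
    refine sy_quad H.abs_le ?_
    rw [zL_val, zP_quad f H, Units.val_mul, Units.val_mul, Units.coe_prod]
    simp only [xL_val, zL_val]
    rfl
  rw [sy_mul_right, sy_mul_right, sy_self, add_zero, sy_prod_right] at h1
  have h2 : ∑ m, sy (zL f) (xL hf (b m)) = -sy (zL f) lu := by
    rw [add_comm] at h1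
    exact eq_neg_of_add_eq_zero_left h1
  rw [h2]
  exact Submodule.neg_mem _ (sy_const_mem' (cP f) (yL hf) none _)

theorem zx_mem (H : Fm b F lam t) (m : Fin (g + 1)) : sy (zL f) (xL hf (b m)) ∈ Gs hf := by
  have h0 : sy (zL f) (xL hf (b 0)) ∈ Gs hf := by
    have h1 := f1_le hf (sum_mem hf H)
    rw [Fin.sum_univ_succ] at h1
    have h2 : ∑ k : Fin g, sy (zL f) (xL hf (b k.succ)) =
        ∑ k : Fin g, ek f k + (g : ℚ) • sy (zL f) (xL hf (b 0)) := by
      have h3 : ∀ k : Fin g, sy (zL f) (xL hf (b k.succ)) =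
          ek f k + sy (zL f) (xL hf (b 0)) := by
        intro k
        rw [ek_eq hf]
        abel
      rw [Finset.sum_congr rfl fun k _ => h3 k, Finset.sum_add_distrib, Finset.sum_const,
        Finset.card_univ, Fintype.card_fin, Nat.cast_smul_eq_nsmul]
    rw [h2] at h1
    have h3 : ∑ k : Fin g, ek f k ∈ Gs hf := Submodule.sum_mem _ fun k _ => ek_mem hf k
    have h4 : ((g : ℚ) + 1) • sy (zL f) (xL hf (b 0)) ∈ Gs hf := by
      have h5 := Submodule.sub_mem _ h1 h3
      have e : sy (zL f) (xL hf (b 0)) + (∑ k : Fin g, ek f k +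
          (g : ℚ) • sy (zL f) (xL hf (b 0))) - ∑ k : Fin g, ek f k =
          ((g : ℚ) + 1) • sy (zL f) (xL hf (b 0)) := by
        rw [add_smul, one_smul]
        abel
      rwa [e] at h5
    have h5 : ((g : ℚ) + 1) ≠ 0 := by positivity
    have h6 := Submodule.smul_mem _ ((g : ℚ) + 1)⁻¹ h4
    rwa [smul_smul, inv_mul_cancel₀ h5, one_smul] at h6
  refine Fin.cases h0 (fun k => ?_) m
  have h1 : sy (zL f) (xL hf (b k.succ)) = ek f k + sy (zL f) (xL hf (b 0)) := by
    rw [ek_eq hf]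
    abel
  rw [h1]
  exact Submodule.add_mem _ (ek_mem hf k) h0

theorem zc_mem (H : Fm b F lam t) {c : ℚ} (hc : Adm F b c) : sy (zL f) (xL hf c) ∈ Gs hf := by
  by_cases h : ∃ m, b m = c
  · obtain ⟨m, rfl⟩ := h
    exact zx_mem hf H m
  · push Not at h
    exact ns_mem hf hc h

theorem xx_mem {c d : ℚ} (hc : Adm F b c) (hd : Adm F b d) :
    sy (xL hf c) (xL hf d) ∈ F1 (cP f) (yL hf) := by
  by_cases hml : c = d
  · rw [hml, sy_self]
    exact Submodule.zero_mem _
  · have hne : d - c ≠ 0 := sub_ne_zero.2 fun h => hml h.symm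
    set e : Lˣ := qc (cP f) (Units.mk0 _ hne) with hedef
    have hcv : (e : L) = cP f d - cP f c := by
      rw [← map_sub]
      rfl
    have h1 : sy (xL hf c * e⁻¹) (-xL hf d * e⁻¹) = 0 := by
      apply sy_steinberg
      rw [Units.val_mul, Units.val_mul, Units.val_neg, Units.val_inv_eq_inv_val, ← add_mul,
        ← div_eq_mul_inv, div_eq_one_iff_eq e.ne_zero, hcv, xL_val, xL_val]
      ring
    rw [sy_mul_left, sy_mul_right, sy_mul_right, sy_inv_left, sy_inv_left, sy_inv_right,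
      sy_inv_right, sy_neg_right, sy_neg_right, sy_self, neg_zero, neg_zero, add_zero] at h1
    have h2 : sy (xL hf c) (xL hf d) = sy (xL hf c) e + sy e (xL hf d) := by
      have h3 : sy (xL hf c) (xL hf d) - (sy (xL hf c) e + sy e (xL hf d)) = 0 := by
        rw [← h1]
        abel
      exact sub_eq_zero.1 h3
    rw [h2]
    exact Submodule.add_mem _ (sy_const_mem' (cP f) (yL hf) (some ⟨c, hc⟩) _)
      (sy_const_mem (cP f) (yL hf) (some ⟨d, hd⟩) _)

theorem gen_mem (H : Fm b F lam t) {U V : Lˣ}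
    (hU : U ∈ Set.range (qc (cP f)) ∪ Set.range (yL hf))
    (hV : V ∈ Set.range (qc (cP f)) ∪ Set.range (yL hf)) : sy U V ∈ Gs hf := by
  rcases hU with ⟨q, rfl⟩ | ⟨i, rfl⟩
  · rcases hV with ⟨r, rfl⟩ | ⟨j, rfl⟩
    · rw [sy_qc]
      exact Submodule.zero_mem _
    · exact f1_le hf (sy_const_mem (cP f) (yL hf) j q)
  · rcases hV with ⟨r, rfl⟩ | ⟨j, rfl⟩
    · exact f1_le hf (sy_const_mem' (cP f) (yL hf) i r)
    · rcases i with _ | ⟨c, hc⟩
      · rcases j with _ | ⟨d, hd⟩
        · rw [sy_self]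
          exact Submodule.zero_mem _
        · exact zc_mem hf H hd
      · rcases j with _ | ⟨d, hd⟩
        · rw [sy_swap]
          exact Submodule.neg_mem _ (zc_mem hf H hc)
        · exact f1_le hf (xx_mem hf hc hd)

theorem hl_mem (H : Fm b F lam t) {U V : Lˣ} (hU : U ∈ HL hf) (hV : V ∈ HL hf) :
    sy U V ∈ Gs hf := by
  have h1 : ∀ U : Lˣ, U ∈ Set.range (qc (cP f)) ∪ Set.range (yL hf) → ∀ V ∈ HL hf,
      sy U V ∈ Gs hf := by
    intro U hU V hV
    unfold HL at hV
    induction hV using Subgroup.closure_induction with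
    | mem x hx => exact gen_mem hf H hU hx
    | one => rw [sy_one_right]; exact Submodule.zero_mem _
    | mul x y _ _ hx hy => rw [sy_mul_right]; exact Submodule.add_mem _ hx hy
    | inv x _ hx => rw [sy_inv_right]; exact Submodule.neg_mem _ hx
  unfold HL at hU
  induction hU using Subgroup.closure_induction with
  | mem x hx => exact h1 x hx V hV
  | one => rw [sy_one_left]; exact Submodule.zero_mem _
  | mul x y _ _ hx hy => rw [sy_mul_left]; exact Submodule.add_mem _ hx hy
  | inv x _ hx => rw [sy_inv_left]; exact Submodule.neg_mem _ hx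

variable [Algebra (PRing F) L]

theorem range_le (H : Fm b F lam t)
    (hfa : ∀ r, f (toP F b r) = algebraMap (PRing F) L r) :
    LinearMap.range (KQ.map 2 (algebraMap (OO F b L) L)) ≤ Gs hf := by
  rintro _ ⟨w, rfl⟩
  obtain ⟨z, hz⟩ := Submodule.mkQ_surjective _ w
  have key : ∀ z : (Fin 2 → (OO F b L)ˣ) →₀ ℚ,
      KQ.map 2 (algebraMap (OO F b L) L) (KQ.mkQ z) ∈ Gs hf := by
    intro z
    induction z using Finsupp.induction_linear with
    | zero => rw [map_zero, map_zero]; exact Submodule.zero_mem _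
    | add z w hz hw => rw [map_add, map_add]; exact Submodule.add_mem _ hz hw
    | single a q =>
      have e : Finsupp.single a q = q • Finsupp.single a (1 : ℚ) := by simp
      rw [e, map_smul, map_smul]
      refine Submodule.smul_mem _ _ ?_
      show KQ.map 2 (algebraMap (OO F b L) L) (symb a) ∈ Gs hf
      rw [eq_cons a, map_sy]
      have h1 := hl_mem hf H (sq_mem hf H (Nat.succ_pos g) hfa (a 0))
        (sq_mem hf H (Nat.succ_pos g) hfa (a 1))
      rw [sy_pow_left, sy_pow_right, smul_smul] at h1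
      have h2 := Submodule.smul_mem _ (((2 : ℕ) : ℚ) * ((2 : ℕ) : ℚ))⁻¹ h1
      rwa [smul_smul, inv_mul_cancel₀ (by norm_num), one_smul] at h2
  have h3 := key z
  have h4 : KQ.mkQ z = w := hz
  rwa [h4] at h3

include hf in
theorem el_le_range (hfa : ∀ r, f (toP F b r) = algebraMap (PRing F) L r) :
    EL f ≤ LinearMap.range (KQ.map 2 (algebraMap (OO F b L) L)) := by
  have hu : ∀ m : Fin (g + 1), ∃ w : (OO F b L)ˣ,
      Units.map (algebraMap (OO F b L) L : OO F b L →* L) w = xL hf (b m) := by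
    intro m
    have h1 : algebraMap (PRing F) L (ppol F (X - C (b m))) ∈ OO F b L :=
      Subalgebra.algebraMap_mem _ _
    have h2 : (algebraMap (PRing F) L (ppol F (X - C (b m))))⁻¹ ∈ OO F b L :=
      Algebra.subset_adjoin ⟨b m, adm_b m, rfl⟩
    have h3 : algebraMap (PRing F) L (ppol F (X - C (b m))) ≠ 0 := by
      rw [← hfa, f_ppol_sub hf]
      exact (xL hf (b m)).ne_zero
    refine ⟨⟨⟨_, h1⟩, ⟨_, h2⟩, Subtype.ext (mul_inv_cancel₀ h3),
      Subtype.ext (inv_mul_cancel₀ h3)⟩, ?_⟩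
    apply Units.ext
    rw [← f_ppol_sub hf, hfa]
    rfl
  have hz : ∃ w : (OO F b L)ˣ,
      Units.map (algebraMap (OO F b L) L : OO F b L →* L) w = zL f := by
    refine ⟨Units.map (algebraMap (PRing F) (OO F b L) : PRing F →* OO F b L) (zu F), ?_⟩
    apply Units.ext
    show algebraMap (PRing F) L (pz F) = f (toP F b (pz F))
    rw [hfa]
  unfold EL
  rw [Submodule.span_le]
  rintro _ ⟨k, rfl⟩
  obtain ⟨w, hw⟩ := hz
  obtain ⟨u0, hu0⟩ := hu 0
  obtain ⟨uk, huk⟩ := hu k.succ
  refine ⟨symb ![w, uk] - symb ![w, u0], ?_⟩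
  rw [map_sub, map_sy, map_sy, hw, hu0, huk, ek_eq hf]

/-- The unramified part of the space of the symbols of units. -/
theorem range_inf_unramified (H : Fm b F lam t)
    (hfa : ∀ r, f (toP F b r) = algebraMap (PRing F) L r)
    (hE : ∀ k, ek f k ∈ Unramified L 2)
    (hN : ∀ c : {c : ℚ // Adm F b c ∧ ∀ m, b m ≠ c}, ∃ (v : Valuation L ℤᵐ⁰) (l : Lg L),
      Function.Surjective v ∧ (∀ q : ℚˣ, v (cP f q) = 1) ∧
      (∀ a : Lˣ, v ((a : L) - 1) < 1 → l.toFun a = 0) ∧ (∀ q : ℚˣ, l.toFun (qc (cP f) q) = 0) ∧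
      l.toFun (zL f) = 1 ∧ ord v (zL f) = 0 ∧ ord v (xL hf c) ≠ 0 ∧
      ∀ d : ℚ, d ≠ c → ord v (xL hf d) = 0)
    (hy : ∀ c : Option {c : ℚ // Adm F b c} →₀ ℚ,
      (∀ v : Valuation L ℤᵐ⁰, Function.Surjective v →
      (∀ q : ℚˣ, v (cP f q) = 1) → (c.sum fun j a => a * (ord v (yL hf j) : ℚ)) = 0) → c = 0) :
    LinearMap.range (KQ.map 2 (algebraMap (OO F b L) L)) ⊓ Unramified L 2 = EL f := by
  have hEU : EL f ≤ Unramified L 2 := by
    unfold EL
    rw [Submodule.span_le]
    rintro _ ⟨k, rfl⟩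
    exact hE k
  refine le_antisymm ?_ (le_inf (el_le_range hf hfa) hEU)
  rintro s ⟨h1, h2⟩
  obtain ⟨s₁, h3, s', h4, h5⟩ := Submodule.mem_sup.1 (range_le hf H hfa h1)
  obtain ⟨s₂, h6, s₃, h7, h8⟩ := Submodule.mem_sup.1 h4
  obtain ⟨a, ha⟩ := h6
  have ha0 : a = 0 := by
    ext c
    obtain ⟨v, l, hv, hq, hl, hlq, hlz, hz, hc, hd⟩ := hN c
    have e1 := tame_unramified hv l hl h2
    rw [← h5, ← h8, map_add, map_add, tame_f1 (cP f) (yL hf) v hq l hl hlq h3,
      tame_unramified hv l hl (hEU h7), zero_add, add_zero, ← ha] at e1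
    unfold nsm at e1
    rw [Finsupp.linearCombination_apply, Finsupp.sum, map_sum] at e1
    have e2 : ∀ d : {c : ℚ // Adm F b c ∧ ∀ m, b m ≠ c},
        tame v l hl (a d • sy (zL f) (xL hf d)) = a d * ord v (xL hf d) := by
      intro d
      rw [map_smul, tame_sy, hlz, hz]
      simp
    rw [Finset.sum_congr rfl fun d _ => e2 d] at e1
    by_cases hcs : c ∈ a.support
    · rw [Finset.sum_eq_single_of_mem c hcs] at e1
      · have h9 : (ord v (xL hf c) : ℚ) ≠ 0 := Int.cast_ne_zero.2 hc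
        exact (mul_eq_zero.1 e1).resolve_right h9
      · intro d _ hdc
        rw [hd d fun h => hdc (Subtype.ext h), Int.cast_zero, mul_zero]
    · exact Finsupp.notMem_support_iff.1 hcs
  have hs2 : s₂ = 0 := by rw [← ha, ha0, map_zero]
  rw [hs2, zero_add] at h8
  have h9 : s₁ ∈ Unramified L 2 := by
    have e : s₁ = s - s₃ := by rw [← h5, h8]; abel
    rw [e]
    exact Submodule.sub_mem _ h2 (hEU h7)
  have h10 := f1_inf_unramified (cP f) (yL hf) hy h3 h9
  rw [← h5, h10, zero_add, ← h8]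
  exact h7

end Pool.Agent.Helper537_Sym
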