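import Pool.Agent.Helper537_Sym.Inf
import Pool.Agent.Helper537_Sym.LoopsL
set_option autoImplicit false

/-!
The regulator on the unramified part of the space of the symbols of units is an isomorphism.
-/

namespace Pool.Agent.Helper537_Sym

open Polynomial TensorProduct

open Pool.Agent.TH826.MK (KQ symb Torus Unramified)

open Pool.Agent.TH826.HD

section linear

variable {g : ℕ} {L : Type*} [Field L]

/-- The `ℝ`-linear extension `ℝ ⊗ W → ℝ^g` of the map given by the regulators on `g` loops. -/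
noncomputable def regR (Γ : Fin g → Torus L 1) (W : Submodule ℚ (KQ L 2)) :
    ℝ ⊗[ℚ] W →ₗ[ℝ] (Fin g → ℝ) :=
  LinearMap.liftBaseChange ℝ (LinearMap.pi fun l => (Γ l).reg ∘ₗ W.subtype)

theorem regR_tmul (Γ : Fin g → Torus L 1) (W : Submodule ℚ (KQ L 2)) (r : ℝ) (w : W)
    (l : Fin g) : regR Γ W (r ⊗ₜ w) l = r * (Γ l).reg (w : KQ L 2) := by
  unfold regR
  rw [LinearMap.liftBaseChange_tmul]
  rfl

theorem bijective_regR (Γ : Fin g → Torus L 1) (e : Fin g → KQ L 2)
    (hdet : (Matrix.of fun l k : Fin g => (Γ l).reg (e k)).det ≠ 0) :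
    Module.finrank ℚ (Submodule.span ℚ (Set.range e)) = g ∧
      Function.Bijective (regR Γ (Submodule.span ℚ (Set.range e))) := by
  let ℓ : KQ L 2 →ₗ[ℚ] (Fin g → ℝ) := LinearMap.pi fun l => (Γ l).reg
  have hM : LinearIndependent ℝ (Matrix.of fun l k : Fin g => (Γ l).reg (e k)).col :=
    Matrix.linearIndependent_cols_of_det_ne_zero hdet
  have hl : LinearIndependent ℝ (fun k => ℓ (e k)) := hM
  have hl2 : LinearIndependent ℚ (fun k => ℓ (e k)) :=
    hl.restrict_scalars (by
      intro x y h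
      have h2 : (x : ℝ) = (y : ℝ) := by simpa [Algebra.smul_def] using h
      exact_mod_cast h2)
  have hli : LinearIndependent ℚ e := LinearIndependent.of_comp ℓ hl2
  refine ⟨by rw [finrank_span_eq_card hli, Fintype.card_fin], ?_⟩
  set B := Module.Basis.span hli with hB
  have hmat : LinearMap.toMatrix (B.baseChange ℝ) (Pi.basisFun ℝ (Fin g))
      (regR Γ (Submodule.span ℚ (Set.range e))) = Matrix.of fun l k : Fin g =>
      (Γ l).reg (e k) := by
    ext l k
    rw [LinearMap.toMatrix_apply, Pi.basisFun_repr, Module.Basis.baseChange_apply, regR_tmul,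
      one_mul, Matrix.of_apply, hB, Module.Basis.span_apply]
  have hu : IsUnit (LinearMap.toMatrix (B.baseChange ℝ) (Pi.basisFun ℝ (Fin g))
      (regR Γ (Submodule.span ℚ (Set.range e)))).det := by
    rw [hmat]
    exact hdet.isUnit
  have h1 : (regR Γ (Submodule.span ℚ (Set.range e)) : ℝ ⊗[ℚ] _ → (Fin g → ℝ)) =
      LinearEquiv.ofIsUnitDet hu := by
    have h2 := LinearEquiv.coe_ofIsUnitDet hu
    exact (congrArg (fun φ : _ →ₗ[ℝ] _ => (φ : ℝ ⊗[ℚ] _ → (Fin g → ℝ))) h2).symm
  rw [h1]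
  exact (LinearEquiv.ofIsUnitDet hu).bijective

end linear

variable {g : ℕ} {F : ℚ[X]} {b : Fin (g + 1) → ℚ} {lam : ℚ} {t : ℤ} {ρ η : ℝ}

/-- The classes of the symbols of the units of the ring obtained from the coordinate ring of the
curve by inverting the functions `x - c`, `c` admissible, which are unramified at all discrete
valuations of the function field `L`. -/
noncomputable def Cls (F : ℚ[X]) (b : Fin (g + 1) → ℚ) (L : Type*) [Field L]
    [Algebra (PRing F) L] : Submodule ℚ (KQ L 2) :=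
  LinearMap.range (KQ.map 2 (algebraMap (OO F b L) L)) ⊓ Unramified L 2

theorem main (H : Fm b F lam t) (hS : Pool.Agent.TH826.UH.Sepd (F.map emC) (fun j => emC (b j)) ρ η)
    (d : Fin (g + 1) → Fin (g + 1) → ℝ)
    (hd : ∀ i j, i ≠ j → 0 < d i j ∧ ρ + d i j ≤ ‖emC (b j) - emC (b i)‖)
    (hcrit : ∀ p q, p ≠ q → 0 ≤ Real.log ‖(F.map emC).leadingCoeff‖ + Real.log (d p q) +
      Real.log (d q p) + ∑ j ∈ (Finset.univ.erase p).erase q, Real.log (min (d p j) (d q j)))
    (hFi : ∀ i, IsIntegral ℤ (F.coeff i)) (hbi : ∀ m, IsIntegral ℤ (b m))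
    (ht : ∀ m, ∃ (ζ : ℂ) (k : ℕ), k ≠ 0 ∧ ζ ^ k = 1 ∧ emC (F.eval (b m)) = ζ + ζ⁻¹)
    (L : Type*) [Field L] [Algebra (PRing F) L] [IsFractionRing (PRing F) L] :
    Module.finrank ℚ (Cls F b L) = g ∧ ∃ Γ : Fin g → Torus L 1,
      Function.Bijective (regR Γ (Cls F b L)) := by
  have hdeg : 0 < F.natDegree := by
    rw [H.natDegree]
    exact Nat.succ_pos g
  have hinj : Function.Injective (algebraMap (PRing F) L) := IsFractionRing.injective _ _
  have hne : algebraMap (PRing F) L (pDel F b) ≠ 0 := by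
    rw [Ne, map_eq_zero_iff _ hinj]
    exact pDel_ne_zero b
  set f : POpen F b →+* L := liftP (algebraMap (PRing F) L) hne with hf0
  have hfa : ∀ r, f (toP F b r) = algebraMap (PRing F) L r := fun r => liftP_toP _ _ _
  have hf : Inj f := by
    intro r hr
    rw [hfa] at hr
    exact (injective_iff_map_eq_zero _).1 hinj r hr
  have hfr : ∀ l : L, ∃ a a' : PRing F, l = f (toP F b a) / f (toP F b a') := by
    intro l
    obtain ⟨a, c, -, h⟩ := IsFractionRing.div_surjective (PRing F) l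
    exact ⟨a, c, by rw [hfa, hfa, h]⟩
  have hE : ∀ k, ek f k ∈ Unramified L 2 := fun k =>
    Pool.Agent.TH826.UH.symb_mem_unramified f emC hFi hbi k.succ 0 ht
  have hW : Cls F b L = EL f := by
    unfold Cls
    exact range_inf_unramified hf H hfa hE (nonspecial hf hfr) (orders_indep H hf hfr)
  have ht' : ∀ i, ∃ ζ : ℂ, ‖ζ‖ = 1 ∧ emC (F.eval (b i)) = ζ + ζ⁻¹ := by
    intro i
    obtain ⟨ζ, k, hk, h1, h2⟩ := ht i
    refine ⟨ζ, ?_, h2⟩
    have h3 := congrArg norm h1
    rw [norm_pow, norm_one] at h3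
    exact (pow_eq_one_iff_of_nonneg (norm_nonneg _) hk).1 h3
  obtain ⟨Γ, hΓ⟩ := exists_loops hdeg hS d hd hcrit ht' f hfa
  obtain ⟨h1, h2⟩ := bijective_regR Γ (ek f) hΓ
  rw [hW]
  exact ⟨h1, Γ, h2⟩

end Pool.Agent.Helper537_Sym
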