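import Pool.Agent.TH826.HD.Ring
set_option autoImplicit false

/-!
The coordinate ring of `z² - F z + 1 = 0` as a quadratic extension of the polynomial ring: the norm
and the elements with norm a product of squares of `x - b_m`.
-/

namespace Pool.Agent.Helper537_Sym

open Polynomial

open Pool.Agent.TH826.HD

variable {K : Type*} [Field K] {F : K[X]}

/-- The element `P + Q z`. -/
noncomputable def el (F P Q : K[X]) : PRing F := ppol F P + ppol F Q * pz F

/-- The norm of `P + Q z`. -/
noncomputable def nm (F P Q : K[X]) : K[X] := P ^ 2 + P * Q * F + Q ^ 2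

theorem exists_el (r : PRing F) : ∃ P Q : K[X], r = el F P Q := by
  obtain ⟨p, hp⟩ := AdjoinRoot.mk_surjective (g := peqn F) r
  have hm := monic_peqn F
  set q := p %ₘ peqn F with hq
  have h1 : AdjoinRoot.mk (peqn F) q = AdjoinRoot.mk (peqn F) p := by
    rw [AdjoinRoot.mk_eq_mk]
    refine ⟨-(p /ₘ peqn F), ?_⟩
    have h2 := modByMonic_add_div p (peqn F)
    linear_combination h2
  have hdeg : q.degree < 2 := by
    have h2 := degree_modByMonic_lt p hm
    rwa [degree_eq_natDegree hm.ne_zero, natDegree_peqn] at h2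
  have hq2 : q = C (q.coeff 1) * X + C (q.coeff 0) :=
    eq_X_add_C_of_degree_le_one (Order.le_of_lt_succ hdeg)
  refine ⟨q.coeff 0, q.coeff 1, ?_⟩
  rw [← hp, ← h1, hq2, map_add, map_mul, AdjoinRoot.mk_C, AdjoinRoot.mk_C, AdjoinRoot.mk_X]
  unfold el
  simp only [coeff_add, coeff_C_mul, coeff_X_one, coeff_X_zero, coeff_C_zero, mul_one, mul_zero,
    zero_add]
  rw [coeff_C_succ, add_zero, add_comm]
  rfl

theorem el_eq_zero {P Q : K[X]} (h : el F P Q = 0) : P = 0 ∧ Q = 0 := by
  have h1 : AdjoinRoot.mk (peqn F) (C Q * X + C P) = 0 := by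
    rw [map_add, map_mul, AdjoinRoot.mk_C, AdjoinRoot.mk_C, AdjoinRoot.mk_X, add_comm]
    exact h
  rw [AdjoinRoot.mk_eq_zero] at h1
  have h2 : C Q * X + C P = 0 := by
    by_contra hne
    refine (monic_peqn F).not_dvd_of_natDegree_lt hne ?_ h1
    rw [natDegree_peqn]
    exact lt_of_le_of_lt (natDegree_linear_le) (by norm_num)
  constructor
  · have := congrArg (fun p => p.coeff 0) h2
    simpa using this
  · have := congrArg (fun p => p.coeff 1) h2
    simpa using this

theorem el_inj {P Q P' Q' : K[X]} (h : el F P Q = el F P' Q') : P = P' ∧ Q = Q' := by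
  have h1 : el F (P - P') (Q - Q') = 0 := by
    unfold el at h ⊢
    rw [map_sub, map_sub]
    linear_combination h
  obtain ⟨h2, h3⟩ := el_eq_zero h1
  exact ⟨sub_eq_zero.1 h2, sub_eq_zero.1 h3⟩

theorem el_mul (P Q P' Q' : K[X]) :
    el F P Q * el F P' Q' = el F (P * P' - Q * Q') (P * Q' + Q * P' + Q * Q' * F) := by
  unfold el
  simp only [map_add, map_sub, map_mul]
  linear_combination (ppol F Q * ppol F Q') * pz_eq F

theorem nm_mul (P Q P' Q' : K[X]) :
    nm F (P * P' - Q * Q') (P * Q' + Q * P' + Q * Q' * F) = nm F P Q * nm F P' Q' := by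
  unfold nm
  ring

theorem el_conj (P Q : K[X]) : el F P Q * el F (P + Q * F) (-Q) = ppol F (nm F P Q) := by
  rw [el_mul]
  unfold el nm
  simp only [map_add, map_sub, map_mul, map_neg, map_pow]
  ring

theorem ppol_eq_el (P : K[X]) : ppol F P = el F P 0 := by
  unfold el
  rw [map_zero, zero_mul, add_zero]

/-- The unit `z` of the coordinate ring. -/
noncomputable def zu (F : K[X]) : (PRing F)ˣ :=
  ⟨pz F, ppol F F - pz F, pz_mul F, by rw [mul_comm]; exact pz_mul F⟩

theorem zu_val : ((zu F : (PRing F)ˣ) : PRing F) = pz F := rfl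

theorem zu_inv_val : (((zu F)⁻¹ : (PRing F)ˣ) : PRing F) = ppol F F - pz F := rfl

theorem el_mul_z (P Q : K[X]) : el F P Q * pz F = el F (-Q) (P + Q * F) := by
  unfold el
  simp only [map_add, map_mul, map_neg]
  linear_combination (ppol F Q) * pz_eq F

theorem el_mul_zinv (P Q : K[X]) :
    el F P Q * (ppol F F - pz F) = el F (P * F + Q) (-P) := by
  unfold el
  simp only [map_add, map_mul, map_neg]
  linear_combination (-ppol F Q) * pz_eq F

/-- Elements of constant norm are powers of `z` up to constants. -/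
theorem pell (hF : 0 < F.natDegree) (N : ℕ) : ∀ (P Q : K[X]) (c : K), c ≠ 0 →
    P.natDegree + Q.natDegree < N → nm F P Q = C c →
    ∃ (c' : K) (k : ℤ), c' ≠ 0 ∧ el F P Q = ppol F (C c') * ((zu F ^ k : (PRing F)ˣ) : PRing F) := by
  induction N with
  | zero => intro P Q c _ h; exact absurd h (Nat.not_lt_zero _)
  | succ N ih =>
    intro P Q c hc hlt hn
    have hunitP : Q = 0 → ∃ c' : K, c' ≠ 0 ∧ P = C c' := by
      intro hQ
      rw [hQ] at hn
      unfold nm at hn
      have h1 : P * P = C c := by linear_combination hn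
      have h2 : IsUnit P := isUnit_of_mul_isUnit_left (y := P) (by
        rw [h1]; exact isUnit_C.2 (isUnit_iff_ne_zero.2 hc))
      obtain ⟨c', h3, h4⟩ := Polynomial.isUnit_iff.1 h2
      exact ⟨c', h3.ne_zero, h4.symm⟩
    have hunitQ : P = 0 → ∃ c' : K, c' ≠ 0 ∧ Q = C c' := by
      intro hP
      rw [hP] at hn
      unfold nm at hn
      have h1 : Q * Q = C c := by linear_combination hn
      have h2 : IsUnit Q := isUnit_of_mul_isUnit_left (y := Q) (by
        rw [h1]; exact isUnit_C.2 (isUnit_iff_ne_zero.2 hc))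
      obtain ⟨c', h3, h4⟩ := Polynomial.isUnit_iff.1 h2
      exact ⟨c', h3.ne_zero, h4.symm⟩
    by_cases hQ : Q = 0
    · obtain ⟨c', h1, h2⟩ := hunitP hQ
      refine ⟨c', 0, h1, ?_⟩
      rw [hQ, h2, zpow_zero, Units.val_one, mul_one, ppol_eq_el]
    by_cases hP : P = 0
    · obtain ⟨c', h1, h2⟩ := hunitQ hP
      refine ⟨c', 1, h1, ?_⟩
      rw [hP, h2, zpow_one, zu_val]
      unfold el
      rw [map_zero, zero_add]
    have hF0 : F ≠ 0 := by
      rintro rfl
      rw [natDegree_zero] at hF
      exact lt_irrefl _ hF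
    have hdeg2 : ∀ R : K[X], (C c - R ^ 2).natDegree ≤ 2 * R.natDegree := by
      intro R
      refine (natDegree_sub_le _ _).trans (max_le ?_ ?_)
      · rw [natDegree_C]; exact Nat.zero_le _
      · exact natDegree_pow_le
    rcases lt_trichotomy P.natDegree Q.natDegree with hd | hd | hd
    · -- multiply by `1/z`
      have hmul : Q * (P * F + Q) = C c - P ^ 2 := by
        rw [← hn]; unfold nm; ring
      have hlt' : (P * F + Q).natDegree + (-P).natDegree < N := by
        rw [natDegree_neg]
        by_cases h0 : P * F + Q = 0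
        · rw [h0, natDegree_zero]
          omega
        · have h1 := natDegree_mul hQ h0
          rw [hmul] at h1
          have h2 := hdeg2 P
          omega
      have hn' : nm F (P * F + Q) (-P) = C c := by
        rw [← hn]; unfold nm; ring
      obtain ⟨c', k, hc', h1⟩ := ih _ _ c hc hlt' hn'
      refine ⟨c', k + 1, hc', ?_⟩
      rw [← el_mul_zinv] at h1
      calc el F P Q = el F P Q * (ppol F F - pz F) * pz F := by
            rw [mul_assoc, mul_comm (ppol F F - pz F), pz_mul, mul_one]
        _ = _ := by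
            rw [h1, zpow_add_one, Units.val_mul, zu_val, mul_assoc]
    · exfalso
      have h1 : (P * Q * F).natDegree = P.natDegree + Q.natDegree + F.natDegree := by
        rw [natDegree_mul (mul_ne_zero hP hQ) hF0, natDegree_mul hP hQ]
      have h2 : P * Q * F = C c - P ^ 2 - Q ^ 2 := by
        rw [← hn]; unfold nm; ring
      have h3 : (C c - P ^ 2 - Q ^ 2).natDegree ≤ 2 * P.natDegree := by
        refine (natDegree_sub_le _ _).trans (max_le (hdeg2 P) ?_)
        rw [hd]
        exact natDegree_pow_le
      rw [← h2, h1] at h3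
      omega
    · -- multiply by `z`
      have hmul : P * (P + Q * F) = C c - Q ^ 2 := by
        rw [← hn]; unfold nm; ring
      have hlt' : (-Q).natDegree + (P + Q * F).natDegree < N := by
        rw [natDegree_neg]
        by_cases h0 : P + Q * F = 0
        · rw [h0, natDegree_zero]
          omega
        · have h1 := natDegree_mul hP h0
          rw [hmul] at h1
          have h2 := hdeg2 Q
          omega
      have hn' : nm F (-Q) (P + Q * F) = C c := by
        rw [← hn]; unfold nm; ring
      obtain ⟨c', k, hc', h1⟩ := ih _ _ c hc hlt' hn'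
      refine ⟨c', k - 1, hc', ?_⟩
      rw [← el_mul_z] at h1
      calc el F P Q = el F P Q * pz F * (ppol F F - pz F) := by
            rw [mul_assoc, pz_mul, mul_one]
        _ = _ := by
            rw [h1, zpow_sub_one, Units.val_mul, zu_inv_val, mul_assoc]

end Pool.Agent.Helper537_Sym
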