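import Pool.Agent.Helper537_Sym.Tame
set_option autoImplicit false

/-!
Symbols with a constant entry: an unramified combination of symbols `{q, y_j}`, `q` a rational
constant, vanishes if the orders of the `y_j` at the valuations trivial on the constants are
linearly independent.
-/

namespace Pool.Agent.Helper537_Sym

open scoped WithZero
open Pool.Agent.TH826.MK (KQ symb unitPart Unramified)

variable {L : Type*} [Field L] {ι : Type*}

/-- The map `c ↦ ∑_{p, j} c_j(p) {p, y_j}`. -/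
noncomputable def theta (f : ℚ →+* L) (y : ι → Lˣ) : (ι →₀ (Nat.Primes →₀ ℚ)) →ₗ[ℚ] KQ L 2 :=
  Finsupp.lsum ℚ fun j => Finsupp.linearCombination ℚ
    fun p : Nat.Primes => sy (qc f (un p)) (y j)

theorem theta_apply (f : ℚ →+* L) (y : ι → Lˣ) (c : ι →₀ (Nat.Primes →₀ ℚ)) :
    theta f y c = c.sum fun j cj => Finsupp.linearCombination ℚ
      (fun p : Nat.Primes => sy (qc f (un p)) (y j)) cj := by
  unfold theta
  rw [Finsupp.lsum_apply]

theorem qc_mul (f : ℚ →+* L) (a b : ℚˣ) : qc f (a * b) = qc f a * qc f b := by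
  unfold qc; rw [map_mul]

theorem qc_inv (f : ℚ →+* L) (a : ℚˣ) : qc f a⁻¹ = (qc f a)⁻¹ := by
  unfold qc; rw [map_inv]

theorem qc_neg (f : ℚ →+* L) (a : ℚˣ) : qc f (-a) = -qc f a := by
  apply Units.ext
  show f ((-a : ℚˣ) : ℚ) = ((-qc f a : Lˣ) : L)
  rw [Units.val_neg, Units.val_neg, map_neg]
  rfl

theorem qc_one (f : ℚ →+* L) : qc f 1 = 1 := by
  unfold qc; rw [map_one]

/-- The space of the symbols with one constant entry. -/
noncomputable def F1 (f : ℚ →+* L) (y : ι → Lˣ) : Submodule ℚ (KQ L 2) :=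
  LinearMap.range (theta f y)

theorem sy_prime_mem (f : ℚ →+* L) (y : ι → Lˣ) (p : Nat.Primes) (j : ι) :
    sy (qc f (un p)) (y j) ∈ F1 f y := by
  refine ⟨Finsupp.single j (Finsupp.single p 1), ?_⟩
  rw [theta_apply, Finsupp.sum_single_index (by rw [map_zero]),
    Finsupp.linearCombination_single, one_smul]

theorem sy_nat_mem (f : ℚ →+* L) (y : ι → Lˣ) (j : ι) (a : ℕ) :
    a ≠ 0 → sy (qc f (un a)) (y j) ∈ F1 f y := by
  induction a using induction_on_primes with
  | zero => exact fun h => absurd rfl h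
  | one =>
    intro _
    rw [un_one, qc_one, sy_one_left]
    exact Submodule.zero_mem _
  | prime_mul p a hp ih =>
    intro h0
    have ha0 : a ≠ 0 := right_ne_zero_of_mul h0
    have hp0 : p ≠ 0 := left_ne_zero_of_mul h0
    rw [un_mul hp0 ha0, qc_mul, sy_mul_left]
    exact Submodule.add_mem _ (sy_prime_mem f y ⟨p, hp⟩ j) (ih ha0)

theorem sy_const_mem (f : ℚ →+* L) (y : ι → Lˣ) (j : ι) (q : ℚˣ) :
    sy (qc f q) (y j) ∈ F1 f y := by
  obtain ⟨a, b, ha, hb, h⟩ := exists_un q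
  have key : sy (qc f (un a * (un b)⁻¹)) (y j) ∈ F1 f y := by
    rw [qc_mul, qc_inv, sy_mul_left, sy_inv_left]
    exact Submodule.add_mem _ (sy_nat_mem f y j a ha)
      (Submodule.neg_mem _ (sy_nat_mem f y j b hb))
  rcases h with h | h
  · rw [h]; exact key
  · rw [h, qc_neg, sy_neg_left]; exact key

theorem sy_const_mem' (f : ℚ →+* L) (y : ι → Lˣ) (j : ι) (q : ℚˣ) :
    sy (y j) (qc f q) ∈ F1 f y := by
  rw [sy_swap]
  exact Submodule.neg_mem _ (sy_const_mem f y j q)

/-- The `p`-adic valuation on the units of `ℚ`. -/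
noncomputable def chi (p : ℕ) (x : ℚˣ) : ℚ := (padicValRat p (x : ℚ) : ℚ)

theorem chi_mul (p : Nat.Primes) (a b : ℚˣ) : chi p (a * b) = chi p a + chi p b := by
  have : Fact (Nat.Prime (p : ℕ)) := ⟨p.2⟩
  unfold chi
  rw [Units.val_mul, padicValRat.mul a.ne_zero b.ne_zero, Int.cast_add]

theorem chi_un_self (p : Nat.Primes) : chi p (un p) = 1 := by
  have : Fact (Nat.Prime (p : ℕ)) := ⟨p.2⟩
  unfold chi
  rw [un_val p.2.ne_zero, padicValRat.of_nat, padicValNat_self]
  norm_num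

theorem chi_un_ne {p r : Nat.Primes} (h : p ≠ r) : chi p (un r) = 0 := by
  have : Fact (Nat.Prime (p : ℕ)) := ⟨p.2⟩
  have : Fact (Nat.Prime (r : ℕ)) := ⟨r.2⟩
  unfold chi
  rw [un_val r.2.ne_zero, padicValRat.of_nat, padicValNat_primes]
  · norm_num
  · intro h2
    exact h (Subtype.ext h2)

theorem tame_theta (f : ℚ →+* L) (y : ι → Lˣ) (c : ι →₀ (Nat.Primes →₀ ℚ))
    (v : Valuation L ℤᵐ⁰) (hf : ∀ q : ℚˣ, v (f q) = 1) (l : Lg L)
    (hl : ∀ a : Lˣ, v ((a : L) - 1) < 1 → l.toFun a = 0) (p : Nat.Primes)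
    (hp : ∀ q : ℚˣ, l.toFun (qc f q) = chi p q) :
    tame v l hl (theta f y c) = c.sum fun j cj => cj p * ord v (y j) := by
  rw [theta_apply, Finsupp.sum, map_sum, Finsupp.sum]
  refine Finset.sum_congr rfl fun j _ => ?_
  rw [Finsupp.linearCombination_apply, Finsupp.sum, map_sum]
  have h1 : ∀ r : Nat.Primes, tame v l hl ((c j) r • sy (qc f (un r)) (y j)) =
      (c j) r * (ord v (y j) * chi p (un r)) := by
    intro r
    rw [map_smul, tame_sy, hp, ord_of_one (a := qc f (un r)) (hf (un r))]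
    simp
  rw [Finset.sum_congr rfl fun r _ => h1 r]
  by_cases hj : p ∈ (c j).support
  · rw [Finset.sum_eq_single_of_mem p hj]
    · rw [chi_un_self, mul_one]
    · intro r _ hr
      rw [chi_un_ne (Ne.symm hr), mul_zero, mul_zero]
  · rw [Finset.sum_eq_zero]
    · rw [Finsupp.notMem_support_iff.1 hj, zero_mul]
    · intro r hr
      have : p ≠ r := fun e => hj (e ▸ hr)
      rw [chi_un_ne this, mul_zero, mul_zero]

/-- Functionals which vanish on the constants vanish on the symbols with a constant entry. -/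
theorem tame_f1 (f : ℚ →+* L) (y : ι → Lˣ)
    (v : Valuation L ℤᵐ⁰) (hf : ∀ q : ℚˣ, v (f q) = 1) (l : Lg L)
    (hl : ∀ a : Lˣ, v ((a : L) - 1) < 1 → l.toFun a = 0)
    (hp : ∀ q : ℚˣ, l.toFun (qc f q) = 0) {s : KQ L 2} (hs : s ∈ F1 f y) :
    tame v l hl s = 0 := by
  obtain ⟨c, rfl⟩ := hs
  rw [theta_apply, Finsupp.sum, map_sum]
  refine Finset.sum_eq_zero fun j _ => ?_
  rw [Finsupp.linearCombination_apply, Finsupp.sum, map_sum]
  refine Finset.sum_eq_zero fun r _ => ?_
  rw [map_smul, tame_sy, hp, ord_of_one (a := qc f (un r)) (hf (un r))]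
  simp

theorem tame_unramified {v : Valuation L ℤᵐ⁰} (hv : Function.Surjective v) (l : Lg L)
    (hl : ∀ a : Lˣ, v ((a : L) - 1) < 1 → l.toFun a = 0) {s : KQ L 2}
    (hu : s ∈ Unramified L 2) : tame v l hl s = 0 := by
  unfold Unramified at hu
  rw [Submodule.mem_iInf] at hu
  have h3 := hu v
  rw [Submodule.mem_iInf] at h3
  exact tame_unitPart v l hl (h3 hv)

/-- An unramified combination of symbols with a constant entry vanishes. -/
theorem f1_inf_unramified (f : ℚ →+* L) (y : ι → Lˣ)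
    (hy : ∀ c : ι →₀ ℚ, (∀ v : Valuation L ℤᵐ⁰, Function.Surjective v →
      (∀ q : ℚˣ, v (f q) = 1) → (c.sum fun j a => a * (ord v (y j) : ℚ)) = 0) → c = 0)
    {s : KQ L 2} (hs : s ∈ F1 f y) (hu : s ∈ Unramified L 2) : s = 0 := by
  obtain ⟨c, rfl⟩ := hs
  have h1 : ∀ p : Nat.Primes, c.mapRange (fun x : Nat.Primes →₀ ℚ => x p) rfl = 0 := by
    intro p
    apply hy
    intro v hv hq
    obtain ⟨l, hl, hlq⟩ := exists_lg v f hq (chi p) (chi_mul p)
    rw [Finsupp.sum_mapRange_index (by intro j; rw [zero_mul]),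
      ← tame_theta f y c v hq l hl p hlq]
    exact tame_unramified hv l hl hu
  have h2 : c = 0 := by
    ext j p
    have h3 := DFunLike.congr_fun (h1 p) j
    rw [Finsupp.mapRange_apply] at h3
    exact h3
  rw [h2, map_zero]

end Pool.Agent.Helper537_Sym
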