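import Pool.Agent.Helper537_Sym.Desc
import Pool.Agent.Helper537_Sym.Indep
set_option autoImplicit false

/-!
The units of the ring obtained from the coordinate ring of the curve
`z + 1/z = t + lam ∏ (x - b_m)` by inverting `x - c` for the admissible rational numbers `c`.
-/

namespace Pool.Agent.Helper537_Sym

open Polynomial

open scoped WithZero

open Pool.Agent.TH826.MK (KQ symb unitPart Unramified)

open Pool.Agent.TH826.HD

section quad

variable {L : Type*} [Field L]

theorem sy_one_sub {w d : Lˣ} (h : (d : L) = 1 - w) : sy w d = 0 :=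
  sy_steinberg (by rw [h]; ring)

theorem sy_quad_two {w d : Lˣ} (h : (d : L) = (w : L) ^ 2 - 2 * w + 1) : sy w d = 0 := by
  have h1 : (1 : L) - w ≠ 0 := by
    intro h0
    apply d.ne_zero
    rw [h]
    have : (w : L) ^ 2 - 2 * w + 1 = (1 - w) ^ 2 := by ring
    rw [this, h0]
    ring
  have h2 : d = (Units.mk0 _ h1) ^ 2 := by
    apply Units.ext
    rw [Units.val_pow_eq_pow_val, Units.val_mk0, h]
    ring
  rw [h2, sy_pow_right, sy_one_sub (Units.val_mk0 h1), smul_zero]

theorem sy_quad_neg_one {w d : Lˣ} (h : (d : L) = (w : L) ^ 2 + w + 1) : sy w d = 0 := by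
  by_cases h1 : (1 : L) - w = 0
  · have h2 : w = 1 := by
      apply Units.ext
      rw [Units.val_one]
      exact (sub_eq_zero.1 h1).symm
    rw [h2, sy_one_left]
  · set a : Lˣ := Units.mk0 _ h1 with ha
    have h2 : (1 : L) - w ^ 3 ≠ 0 := by
      have h3 : (1 : L) - w ^ 3 = (1 - w) * d := by rw [h]; ring
      rw [h3]
      exact mul_ne_zero h1 d.ne_zero
    set c : Lˣ := Units.mk0 _ h2 with hc
    have h3 : a * d = c := by
      apply Units.ext
      rw [Units.val_mul, ha, hc, Units.val_mk0, Units.val_mk0, h]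
      ring
    have h4 : sy w a = 0 := sy_one_sub (Units.val_mk0 h1)
    have h5 : sy w c = 0 := by
      refine eq_zero_of_two_smul (k := 3) (by norm_num) ?_
      have h6 := sy_pow_left w c 3
      have h7 : sy (w ^ 3) c = 0 := sy_one_sub (by
        rw [hc, Units.val_mk0, Units.val_pow_eq_pow_val])
      rw [h7] at h6
      exact_mod_cast h6.symm
    rw [← h3, sy_mul_right, h4, zero_add] at h5
    exact h5

theorem sy_quad_zero {w d : Lˣ} (h : (d : L) = (w : L) ^ 2 + 1) : sy w d = 0 := by
  have h1 : sy (-w ^ 2) d = 0 := sy_one_sub (by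
    rw [h, Units.val_neg, Units.val_pow_eq_pow_val]
    ring)
  rw [sy_neg_left, sy_pow_left] at h1
  exact eq_zero_of_two_smul (by norm_num) h1

theorem sy_quad {t : ℤ} (ht : |t| ≤ 2) {w d : Lˣ} (h : (d : L) = (w : L) ^ 2 - t * w + 1) :
    sy w d = 0 := by
  rw [abs_le] at ht
  obtain ⟨h1, h2⟩ := ht
  interval_cases t
  · rw [← sy_neg_left]
    refine sy_quad_two ?_
    rw [h, Units.val_neg]
    push_cast
    ring
  · refine sy_quad_neg_one ?_
    rw [h]
    push_cast
    ring
  · refine sy_quad_zero ?_
    rw [h]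
    push_cast
    ring
  · rw [← sy_neg_left]
    refine sy_quad_neg_one ?_
    rw [h, Units.val_neg]
    push_cast
    ring
  · refine sy_quad_two ?_
    rw [h]
    push_cast
    ring

end quad

variable {n : ℕ} {b : Fin n → ℚ} {F : ℚ[X]} {lam : ℚ} {t : ℤ}

/-- The product of the functions `x - c`, `c ∈ l`. -/
noncomputable def DD (F : ℚ[X]) (l : List ℚ) : PRing F :=
  ppol F (l.map fun m => (X - C m)).prod

theorem DD_append (l l' : List ℚ) : DD F (l ++ l') = DD F l * DD F l' := by
  unfold DD
  rw [List.map_append, List.prod_append, map_mul]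

theorem DD_ne_zero (l : List ℚ) : DD F l ≠ 0 := by
  unfold DD
  refine ppol_ne_zero (List.prod_ne_zero fun h => ?_)
  obtain ⟨m, -, hm⟩ := List.mem_map.1 h
  exact X_sub_C_ne_zero m hm

/-- The ring obtained from the coordinate ring of the curve by inverting the functions `x - c` for
all admissible rational numbers `c`, as a subring of the function field `L`. -/
noncomputable def OO (F : ℚ[X]) (b : Fin n → ℚ) (L : Type*) [Field L] [Algebra (PRing F) L] :
    Subalgebra (PRing F) L :=
  Algebra.adjoin (PRing F)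
    ((fun c : ℚ => (algebraMap (PRing F) L (ppol F (X - C c)))⁻¹) '' {c | Adm F b c})

section oo

variable {L : Type*} [Field L] [Algebra (PRing F) L]

theorem exists_num (hi : Function.Injective (algebraMap (PRing F) L)) (w : L)
    (hw : w ∈ OO F b L) : ∃ (l : List ℚ) (a : PRing F), (∀ c ∈ l, Adm F b c) ∧
      w * algebraMap (PRing F) L (DD F l) = algebraMap (PRing F) L a := by
  unfold OO at hw
  induction hw using Algebra.adjoin_induction with
  | mem x hx =>
    obtain ⟨c, hc, rfl⟩ := hx
    refine ⟨[c], 1, ?_, ?_⟩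
    · intro d hd
      rw [List.mem_singleton] at hd
      rw [hd]
      exact hc
    · have h1 : DD F [c] = ppol F (X - C c) := by
        unfold DD
        rw [List.map_singleton, List.prod_singleton]
      have h2 : algebraMap (PRing F) L (ppol F (X - C c)) ≠ 0 := by
        rw [Ne, map_eq_zero_iff _ hi]
        exact ppol_ne_zero (X_sub_C_ne_zero c)
      rw [h1, map_one]
      exact inv_mul_cancel₀ h2
  | algebraMap r =>
    refine ⟨[], r, fun c hc => absurd hc List.not_mem_nil, ?_⟩
    unfold DD
    rw [List.map_nil, List.prod_nil, map_one, map_one, mul_one]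
  | add x y _ _ hx hy =>
    obtain ⟨l, a, hl, h1⟩ := hx
    obtain ⟨l', a', hl', h2⟩ := hy
    refine ⟨l ++ l', a * DD F l' + a' * DD F l, ?_, ?_⟩
    · intro c hc
      rcases List.mem_append.1 hc with h | h
      · exact hl c h
      · exact hl' c h
    · rw [DD_append, map_mul, map_add, map_mul, map_mul, ← h1, ← h2]
      ring
  | mul x y _ _ hx hy =>
    obtain ⟨l, a, hl, h1⟩ := hx
    obtain ⟨l', a', hl', h2⟩ := hy
    refine ⟨l ++ l', a * a', ?_, ?_⟩
    · intro c hc
      rcases List.mem_append.1 hc with h | h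
      · exact hl c h
      · exact hl' c h
    · rw [DD_append, map_mul, map_mul, ← h1, ← h2]
      ring

end oo

section field

variable {L : Type*} [Field L] (f : POpen F b →+* L)

/-- The constants, `x` and `z` generate a ring isomorphic to the coordinate ring. -/
def Inj : Prop := ∀ r : PRing F, f (toP F b r) = 0 → r = 0

variable {f} (hf : Inj f)

theorem Inj.ne (hf : Inj f) (c : ℚ) : xP f - cP f c ≠ 0 := by
  intro h
  have h1 : f (toP F b (ppol F (X - C c))) = 0 := by
    rw [map_ppol, Polynomial.eval₂_sub, Polynomial.eval₂_X, Polynomial.eval₂_C]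
    exact h
  exact ppol_ne_zero (X_sub_C_ne_zero c) (hf _ h1)

/-- the unit `z` of the field -/
noncomputable def zL (f : POpen F b →+* L) : Lˣ := Units.map (f : POpen F b →* L) (uz F b)

/-- the unit `x - c` of the field -/
noncomputable def xL (c : ℚ) : Lˣ := Units.mk0 (xP f - cP f c) (hf.ne c)

/-- the units `z`, `x - c` with `c` admissible -/
noncomputable def yL : Option {c : ℚ // Adm F b c} → Lˣ
  | none => zL f
  | some c => xL hf c

theorem zL_val : (zL f : L) = zP f := rfl

theorem xL_val (c : ℚ) : (xL hf c : L) = xP f - cP f c := rfl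

/-- the subgroup generated by the constants, `z` and the `x - c` -/
def HL : Subgroup Lˣ := Subgroup.closure (Set.range (qc (cP f)) ∪ Set.range (yL hf))

theorem qc_mem (q : ℚˣ) : qc (cP f) q ∈ HL hf :=
  Subgroup.subset_closure (Or.inl ⟨q, rfl⟩)

theorem zL_mem : zL f ∈ HL hf := Subgroup.subset_closure (Or.inr ⟨none, rfl⟩)

theorem xL_mem {c : ℚ} (hc : Adm F b c) : xL hf c ∈ HL hf :=
  Subgroup.subset_closure (Or.inr ⟨some ⟨c, hc⟩, rfl⟩)

theorem f_ppol_sub (c : ℚ) : f (toP F b (ppol F (X - C c))) = (xL hf c : L) := by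
  rw [map_ppol, Polynomial.eval₂_sub, Polynomial.eval₂_X, Polynomial.eval₂_C]
  rfl

theorem f_prod (l : List ℚ) : f (toP F b (l.map fun m => ppol F (X - C m)).prod) =
    (((l.map fun m => xL hf m).prod : Lˣ) : L) := by
  induction l with
  | nil => simp
  | cons m l ih =>
    rw [List.map_cons, List.prod_cons, List.map_cons, List.prod_cons, map_mul, map_mul, ih,
      Units.val_mul, f_ppol_sub hf]

theorem f_DD (l : List ℚ) : f (toP F b (DD F l)) = (((l.map fun m => xL hf m).prod : Lˣ) : L) := by
  rw [← f_prod]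
  unfold DD
  rw [map_list_prod, List.map_map]
  rfl

theorem hl_prod_mem {l : List ℚ} (hl : ∀ c ∈ l, Adm F b c) :
    (l.map fun m => xL hf m).prod ∈ HL hf := by
  refine Subgroup.list_prod_mem _ fun x hx => ?_
  obtain ⟨m, hm, rfl⟩ := List.mem_map.1 hx
  exact xL_mem hf (hl m hm)

variable [Algebra (PRing F) L]

/-- The squares of the units of the ring with the `x - c` inverted. -/
theorem sq_mem (H : Fm b F lam t) (hn : 0 < n)
    (hfa : ∀ r, f (toP F b r) = algebraMap (PRing F) L r) (u : (OO F b L)ˣ) :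
    (Units.map (algebraMap (OO F b L) L : OO F b L →* L) u) ^ 2 ∈ HL hf := by
  have hi : Function.Injective (algebraMap (PRing F) L) := by
    rw [injective_iff_map_eq_zero]
    intro r hr
    rw [← hfa] at hr
    exact hf r hr
  obtain ⟨l, a, hl, ha⟩ := exists_num hi _ (u : OO F b L).2
  obtain ⟨l', a', hl', ha'⟩ := exists_num hi _ ((u⁻¹ : (OO F b L)ˣ) : OO F b L).2
  have h1 : algebraMap (PRing F) L (a * a') = algebraMap (PRing F) L (DD F (l ++ l')) := by
    rw [map_mul, ← ha, ← ha', DD_append, map_mul]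
    have h0 : ((u : OO F b L) : L) * (((u⁻¹ : (OO F b L)ˣ) : OO F b L) : L) = 1 := by
      have h2 : (u : OO F b L) * ((u⁻¹ : (OO F b L)ˣ) : OO F b L) = 1 := by
        rw [← Units.val_mul, mul_inv_cancel, Units.val_one]
      have h3 := congrArg (fun w : OO F b L => (w : L)) h2
      exact h3
    linear_combination (algebraMap (PRing F) L (DD F l) * algebraMap (PRing F) L (DD F l')) * h0
  have h2 : a * a' = DD F (l ++ l') := hi h1
  obtain ⟨c, κ, l'', hc, hl'', h3⟩ := sq_unit H hn (l ++ l') (by
    intro c hc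
    rcases List.mem_append.1 hc with h | h
    · exact hl c h
    · exact hl' c h) h2
  set V : Lˣ := qc (cP f) (Units.mk0 c hc) * zL f ^ κ * (l''.map fun m => xL hf m).prod with hV
  have hVmem : V ∈ HL hf :=
    mul_mem (mul_mem (qc_mem hf _) (zpow_mem (zL_mem hf) _)) (hl_prod_mem hf hl'')
  have h4 : f (toP F b a) ^ 2 = (V : L) := by
    rw [← map_pow, ← map_pow, h3, map_mul, map_mul, map_mul, map_mul, hV, Units.val_mul,
      Units.val_mul, f_prod hf]
    congr 1
    congr 1
    have h5 : (Units.map ((f.comp (toP F b)) : PRing F →* L) (zu F ^ κ)) = zL f ^ κ := by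
      rw [map_zpow]
      congr 1
      apply Units.ext
      rfl
    rw [← h5]
    rfl
  have h6 : (Units.map (algebraMap (OO F b L) L : OO F b L →* L) u) ^ 2 =
      V * (((l.map fun m => xL hf m).prod) ^ 2)⁻¹ := by
    rw [eq_mul_inv_iff_mul_eq, ← mul_pow]
    apply Units.ext
    rw [← h4, Units.val_pow_eq_pow_val, Units.val_mul, ← f_DD hf, hfa, hfa, ← ha]
    rfl
  rw [h6]
  exact mul_mem hVmem (inv_mem (pow_mem (hl_prod_mem hf hl) _))

end field

end Pool.Agent.Helper537_Sym
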