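import Pool.Agent.Helper537_Sym.Norm
set_option autoImplicit false

/-!
The units of the open parts `∏ (x - c) ≠ 0` of the curve `z + 1/z = t + lam ∏ (x - b_m)` up to
squares.
-/

namespace Pool.Agent.Helper537_Sym

open Polynomial

open Pool.Agent.TH826.HD

theorem dvd_of_sq_dvd {t : ℤ} (ht : |t| ≤ 2) {F G : ℚ[X]} {β : ℚ}
    (hF : F = C (t : ℚ) + (X - C β) * G) (hG : G.eval β ≠ 0) {P Q : ℚ[X]}
    (h : (X - C β) ^ 2 ∣ nm F P Q) : (X - C β) ∣ P ∧ (X - C β) ∣ Q := by
  have hFe : F.eval β = t := by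
    rw [hF]
    simp
  have h0 : P.eval β ^ 2 + P.eval β * Q.eval β * t + Q.eval β ^ 2 = 0 := by
    have h1 : (X - C β) ∣ nm F P Q := (dvd_pow_self _ two_ne_zero).trans h
    rw [dvd_iff_isRoot, IsRoot.def] at h1
    unfold nm at h1
    simpa [hFe] using h1
  set p := P.eval β with hp
  set q := Q.eval β with hq
  suffices hpq : p = 0 ∧ q = 0 by
    rw [dvd_iff_isRoot, dvd_iff_isRoot]
    exact hpq
  have hcases : (t : ℚ) ^ 2 = 4 ∨ (t : ℚ) ^ 2 ≤ 1 := by
    rw [abs_le] at ht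
    obtain ⟨h1, h2⟩ := ht
    interval_cases t <;> norm_num
  rcases hcases with h4 | h4
  · -- `t = ± 2`
    set e : ℚ := (t : ℚ) / 2 with he
    have he2 : e ^ 2 = 1 := by rw [he]; linarith
    have hte : (t : ℚ) = 2 * e := by rw [he]; ring
    have h1 : (p + e * q) ^ 2 = 0 := by
      rw [hte] at h0
      linear_combination h0 + q ^ 2 * he2
    have h2 : p + e * q = 0 := pow_eq_zero_iff two_ne_zero |>.1 h1
    have h3 : (X - C β) ∣ P + C e * Q := by
      rw [dvd_iff_isRoot, IsRoot.def, eval_add, eval_mul, eval_C]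
      exact h2
    obtain ⟨R, hR⟩ := h3
    obtain ⟨S, hS⟩ := h
    have h5 : nm F P Q = (P + C e * Q) ^ 2 + P * Q * ((X - C β) * G) := by
      unfold nm
      have h6 : (C e : ℚ[X]) ^ 2 = 1 := by rw [← C_pow, he2, C_1]
      have h7 : (C (t : ℚ) : ℚ[X]) = 2 * C e := by
        rw [hte, C_mul]
        rfl
      rw [hF, h7]
      linear_combination (-Q ^ 2) * h6
    rw [hR, hS] at h5
    have hX : (X - C β : ℚ[X]) ≠ 0 := X_sub_C_ne_zero β
    have h6 : P * Q * G = (X - C β) * (S - R ^ 2) := by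
      refine mul_left_cancel₀ hX ?_
      linear_combination -h5
    have h7 := congrArg (eval β) h6
    simp only [eval_mul, eval_sub, eval_X, eval_C, sub_self, zero_mul] at h7
    have h8 : p * q = 0 := (mul_eq_zero.1 h7).resolve_right hG
    rcases mul_eq_zero.1 h8 with h9 | h9
    · refine ⟨h9, ?_⟩
      rw [h9] at h0
      have : q ^ 2 = 0 := by linear_combination h0
      exact pow_eq_zero_iff two_ne_zero |>.1 this
    · refine ⟨?_, h9⟩
      rw [h9] at h0
      have : p ^ 2 = 0 := by linear_combination h0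
      exact pow_eq_zero_iff two_ne_zero |>.1 this
  · have h5 : (2 * p + t * q) ^ 2 + (4 - (t : ℚ) ^ 2) * q ^ 2 = 0 := by
      linear_combination 4 * h0
    have hq0 : q = 0 := by
      by_contra hne
      have h6 : 0 < q ^ 2 := by positivity
      nlinarith [sq_nonneg (2 * p + t * q)]
    refine ⟨?_, hq0⟩
    rw [hq0] at h0
    have : p ^ 2 = 0 := by linear_combination h0
    exact pow_eq_zero_iff two_ne_zero |>.1 this

variable {n : ℕ}

/-- the family of polynomials -/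
structure Fm (b : Fin n → ℚ) (F : ℚ[X]) (lam : ℚ) (t : ℤ) : Prop where
  lam_ne : lam ≠ 0
  inj : Function.Injective b
  abs_le : |t| ≤ 2
  eq : F = C (t : ℚ) + C lam * ∏ i, (X - C (b i))

variable {b : Fin n → ℚ} {F : ℚ[X]} {lam : ℚ} {t : ℤ}

theorem Fm.factor (H : Fm b F lam t) (m : Fin n) : ∃ G : ℚ[X],
    F = C (t : ℚ) + (X - C (b m)) * G ∧ G.eval (b m) ≠ 0 := by
  refine ⟨C lam * ∏ i ∈ Finset.univ.erase m, (X - C (b i)), ?_, ?_⟩
  · rw [H.eq, ← Finset.mul_prod_erase _ _ (Finset.mem_univ m)]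
    ring
  · rw [eval_mul, eval_C, eval_prod]
    refine mul_ne_zero H.lam_ne (Finset.prod_ne_zero_iff.2 fun i hi => ?_)
    rw [eval_sub, eval_X, eval_C, sub_ne_zero]
    intro h
    exact (Finset.ne_of_mem_erase hi) (H.inj h).symm

theorem Fm.natDegree (H : Fm b F lam t) : F.natDegree = n := by
  have h1 : (∏ i, (X - C (b i))).natDegree = n := by
    rw [natDegree_prod_of_monic _ _ fun i _ => monic_X_sub_C _]
    simp
  rw [H.eq, add_comm, natDegree_add_C, natDegree_C_mul H.lam_ne, h1]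

/-- The admissible rational numbers `c`: `c` is one of the `b_m`, or the points of the curve with
`x = c` are not rational and `z` is not a root of unity there. -/
def Adm (F : ℚ[X]) (b : Fin n → ℚ) (c : ℚ) : Prop :=
  (∃ m, b m = c) ∨ (¬ IsSquare (F.eval c ^ 2 - 4) ∧ F.eval c ≠ 0 ∧ F.eval c ≠ 1 ∧ F.eval c ≠ -1)

theorem dvd_of_not_sq {F : ℚ[X]} {c : ℚ} (hc : ¬ IsSquare (F.eval c ^ 2 - 4)) {P Q : ℚ[X]}
    (h : (X - C c) ∣ nm F P Q) : (X - C c) ∣ P ∧ (X - C c) ∣ Q := by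
  have h0 : P.eval c ^ 2 + P.eval c * Q.eval c * F.eval c + Q.eval c ^ 2 = 0 := by
    rw [dvd_iff_isRoot, IsRoot.def] at h
    unfold nm at h
    simpa using h
  have hq0 : Q.eval c = 0 := by
    by_contra hne
    apply hc
    refine ⟨(2 * P.eval c + F.eval c * Q.eval c) / Q.eval c, ?_⟩
    field_simp
    linear_combination (-4) * h0
  have hp0 : P.eval c = 0 := by
    rw [hq0] at h0
    have : P.eval c ^ 2 = 0 := by linear_combination h0
    exact pow_eq_zero_iff two_ne_zero |>.1 this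
  rw [dvd_iff_isRoot, dvd_iff_isRoot]
  exact ⟨hp0, hq0⟩

theorem adm_dvd (H : Fm b F lam t) {c : ℚ} (hc : Adm F b c) {P Q : ℚ[X]}
    (h : (X - C c) ^ 2 ∣ nm F P Q) : (X - C c) ∣ P ∧ (X - C c) ∣ Q := by
  rcases hc with ⟨m, rfl⟩ | ⟨hc, -⟩
  · obtain ⟨G, hG1, hG2⟩ := H.factor m
    exact dvd_of_sq_dvd H.abs_le hG1 hG2 h
  · exact dvd_of_not_sq hc ((dvd_pow_self _ two_ne_zero).trans h)

theorem sq_norm (H : Fm b F lam t) (hn : 0 < n) (l : List ℚ) (hl : ∀ c ∈ l, Adm F b c) :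
    ∀ (P Q : ℚ[X]) (c : ℚ), c ≠ 0 →
      nm F P Q = C c * (l.map fun m => (X - C m) ^ 2).prod →
      ∃ (c' : ℚ) (k : ℤ), c' ≠ 0 ∧ el F P Q = ppol F (C c') *
        ((zu F ^ k : (PRing F)ˣ) : PRing F) * (l.map fun m => ppol F (X - C m)).prod := by
  induction l with
  | nil =>
    intro P Q c hc h
    rw [List.map_nil, List.prod_nil, mul_one] at h
    obtain ⟨c', k, h1, h2⟩ := pell (by rw [H.natDegree]; exact hn) _ P Q c hc
      (Nat.lt_succ_self _) h
    refine ⟨c', k, h1, ?_⟩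
    rw [List.map_nil, List.prod_nil, mul_one, h2]
  | cons m l ih =>
    intro P Q c hc h
    rw [List.map_cons, List.prod_cons] at h
    obtain ⟨⟨P', hP⟩, ⟨Q', hQ⟩⟩ := adm_dvd H (hl m List.mem_cons_self) (P := P) (Q := Q)
      ⟨C c * (l.map fun m => (X - C m) ^ 2).prod, by rw [h]; ring⟩
    have hX : (X - C m : ℚ[X]) ^ 2 ≠ 0 := pow_ne_zero 2 (X_sub_C_ne_zero m)
    have h1 : nm F P' Q' = C c * (l.map fun m => (X - C m) ^ 2).prod := by
      refine mul_left_cancel₀ hX ?_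
      rw [hP, hQ] at h
      unfold nm at h ⊢
      linear_combination h
    obtain ⟨c', k, hc', h2⟩ := ih (fun x hx => hl x (List.mem_cons_of_mem _ hx)) P' Q' c hc h1
    refine ⟨c', k, hc', ?_⟩
    rw [List.map_cons, List.prod_cons]
    have h3 : el F P Q = ppol F (X - C m) * el F P' Q' := by
      rw [hP, hQ]
      unfold el
      simp only [map_mul]
      ring
    rw [h3, h2]
    ring

theorem dvd_list_prod (l : List ℚ) : ∀ N : ℚ[X],
    N ∣ (l.map fun m => (X - C m)).prod →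
      ∃ (c : ℚ) (l' : List ℚ), c ≠ 0 ∧ (∀ x ∈ l', x ∈ l) ∧
        N = C c * (l'.map fun m => (X - C m)).prod := by
  induction l with
  | nil =>
    intro N h
    rw [List.map_nil, List.prod_nil] at h
    obtain ⟨c, hc, h1⟩ := Polynomial.isUnit_iff.1 (isUnit_of_dvd_one h)
    exact ⟨c, [], hc.ne_zero, fun x hx => hx, by rw [List.map_nil, List.prod_nil, mul_one, h1]⟩
  | cons m l ih =>
    intro N h
    rw [List.map_cons, List.prod_cons] at h
    by_cases h1 : (X - C m) ∣ N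
    swap
    · obtain ⟨c, l', hc, hl', h2⟩ := ih N ((((irreducible_X_sub_C
        m).coprime_iff_not_dvd).2 h1).symm.dvd_of_dvd_mul_left h)
      exact ⟨c, l', hc, fun x hx => List.mem_cons_of_mem _ (hl' x hx), h2⟩
    · obtain ⟨N', hN'⟩ := h1
      rw [hN'] at h
      obtain ⟨c, l', hc, hl', h2⟩ := ih N' ((mul_dvd_mul_iff_left (X_sub_C_ne_zero m)).1 h)
      refine ⟨c, m :: l', hc, fun x hx => ?_, ?_⟩
      · rcases List.mem_cons.1 hx with h3 | h3
        · exact List.mem_cons.2 (Or.inl h3)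
        · exact List.mem_cons_of_mem _ (hl' x h3)
      · rw [List.map_cons, List.prod_cons, hN', h2]
        ring

theorem prod_map_sq {α R : Type*} [CommMonoid R] (f : α → R) (l : List α) :
    (l.map fun m => f m ^ 2).prod = (l.map f).prod ^ 2 := by
  induction l with
  | nil => simp
  | cons a l ih => rw [List.map_cons, List.prod_cons, List.map_cons, List.prod_cons, ih, mul_pow]

theorem sq_unit (H : Fm b F lam t) (hn : 0 < n) {a a' : PRing F} (l : List ℚ)
    (hl : ∀ c ∈ l, Adm F b c) (h : a * a' = ppol F (l.map fun m => (X - C m)).prod) :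
    ∃ (c : ℚ) (k : ℤ) (l' : List ℚ), c ≠ 0 ∧ (∀ x ∈ l', Adm F b x) ∧ a ^ 2 = ppol F (C c) *
        ((zu F ^ k : (PRing F)ˣ) : PRing F) * (l'.map fun m => ppol F (X - C m)).prod := by
  obtain ⟨P, Q, rfl⟩ := exists_el a
  obtain ⟨P', Q', rfl⟩ := exists_el a'
  set D : ℚ[X] := (l.map fun m => (X - C m)).prod with hD
  have h1 : el F P Q * el F P' Q' = el F D 0 := by
    rw [h, ← ppol_eq_el]
  rw [el_mul] at h1
  obtain ⟨h2, h3⟩ := el_inj h1
  have h4 := nm_mul (F := F) P Q P' Q'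
  rw [h2, h3] at h4
  have h5 : nm F D 0 = ((l ++ l).map fun m => (X - C m)).prod := by
    rw [List.map_append, List.prod_append, ← hD]
    unfold nm
    ring
  rw [h5] at h4
  obtain ⟨c, l', hc, hl', h6⟩ := dvd_list_prod (l ++ l) (nm F P Q) (by
    rw [h4]
    exact dvd_mul_right _ _)
  have hl'' : ∀ x ∈ l', Adm F b x := by
    intro x hx
    rcases List.mem_append.1 (hl' x hx) with h7 | h7 <;> exact hl x h7
  have h7 : nm F (P * P - Q * Q) (P * Q + Q * P + Q * Q * F) =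
      C (c ^ 2) * (l'.map fun m => (X - C m) ^ 2).prod := by
    rw [nm_mul, h6, C_pow, prod_map_sq]
    ring
  obtain ⟨c', k, hc', h8⟩ := sq_norm H hn l' hl'' _ _ _ (pow_ne_zero 2 hc) h7
  refine ⟨c', k, l', hc', hl'', ?_⟩
  rw [pow_two, el_mul, h8]

/-- The integers `c` with `|F(c)| ≥ 3` are admissible. -/
theorem adm_of_int {F : ℚ[X]} {b : Fin n → ℚ} {c : ℚ} {m : ℤ} (hm : F.eval c = m)
    (h : 3 ≤ |m|) : Adm F b c := by
  right
  rw [hm]
  refine ⟨?_, ?_, ?_, ?_⟩
  · rintro ⟨r, hr⟩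
    have h1 : (m : ℚ) ^ 2 - 4 = ((m ^ 2 - 4 : ℤ) : ℚ) := by push_cast; ring
    rw [h1] at hr
    have h2 : IsSquare ((m ^ 2 - 4 : ℤ) : ℚ) := ⟨r, hr⟩
    rw [Rat.isSquare_intCast_iff] at h2
    obtain ⟨k, hk⟩ := h2
    have h3 : |m| ^ 2 - 4 = |k| ^ 2 := by
      rw [sq_abs, sq_abs, hk]
      ring
    have h4 : 0 ≤ |k| := abs_nonneg k
    have h5 : |k| < |m| := by nlinarith
    have h6 : |k| ≤ |m| - 1 := by omega
    nlinarith
  · intro h0
    have h1 : m = 0 := by exact_mod_cast h0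
    rw [h1] at h
    norm_num at h
  · intro h0
    have h1 : m = 1 := by exact_mod_cast h0
    rw [h1] at h
    norm_num at h
  · intro h0
    have h1 : m = -1 := by
      have : (m : ℚ) = ((-1 : ℤ) : ℚ) := by rw [h0]; norm_num
      exact_mod_cast this
    rw [h1] at h
    norm_num at h

end Pool.Agent.Helper537_Sym
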