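import Pool.Agent.Helper537_Sym.Symb
set_option autoImplicit false

/-!
`K_2^M(ℚ) ⊗ ℚ = 0`, by Tate's argument.
-/

namespace Pool.Agent.Helper537_Sym

open Pool.Agent.TH826.MK (KQ symb)

/-- A nonzero natural number as a unit of `ℚ`. -/
noncomputable def un (n : ℕ) : ℚˣ := if h : (n : ℚ) ≠ 0 then Units.mk0 (n : ℚ) h else 1

theorem un_val {n : ℕ} (h : n ≠ 0) : (un n : ℚ) = n := by
  have h1 : (n : ℚ) ≠ 0 := Nat.cast_ne_zero.2 h
  unfold un
  rw [dif_pos h1, Units.val_mk0]

theorem un_one : un 1 = 1 := by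
  apply Units.ext
  rw [un_val one_ne_zero, Nat.cast_one, Units.val_one]

theorem un_mul {m n : ℕ} (hm : m ≠ 0) (hn : n ≠ 0) : un (m * n) = un m * un n := by
  apply Units.ext
  rw [un_val (mul_ne_zero hm hn), Units.val_mul, un_val hm, un_val hn, Nat.cast_mul]

/-- All symbols of primes below `n` vanish. -/
def Zn (n : ℕ) : Prop :=
  ∀ p r : ℕ, p.Prime → r.Prime → p < n → r < n → sy (un p) (un r) = 0

theorem zn_left {n : ℕ} (h : Zn n) {r : ℕ} (hr : r.Prime) (hrn : r < n) (a : ℕ) :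
    a ≠ 0 → a < n → sy (un a) (un r) = 0 := by
  induction a using induction_on_primes with
  | zero => exact fun h => absurd rfl h
  | one => intro _ _; rw [un_one, sy_one_left]
  | prime_mul p a hp ih =>
    intro h0 hlt
    have ha0 : a ≠ 0 := right_ne_zero_of_mul h0
    have hp0 : p ≠ 0 := left_ne_zero_of_mul h0
    have h1 : a < n := lt_of_le_of_lt (Nat.le_mul_of_pos_left a (Nat.pos_of_ne_zero hp0)) hlt
    have h2 : p < n := lt_of_le_of_lt (Nat.le_mul_of_pos_right p (Nat.pos_of_ne_zero ha0)) hlt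
    rw [un_mul hp0 ha0, sy_mul_left, ih ha0 h1, h p r hp hr h2 hrn, add_zero]

theorem zn_both {n : ℕ} (h : Zn n) {a : ℕ} (ha : a ≠ 0) (han : a < n) (b : ℕ) :
    b ≠ 0 → b < n → sy (un a) (un b) = 0 := by
  induction b using induction_on_primes with
  | zero => exact fun h => absurd rfl h
  | one => intro _ _; rw [un_one, sy_one_right]
  | prime_mul p b hp ih =>
    intro h0 hlt
    have hb0 : b ≠ 0 := right_ne_zero_of_mul h0
    have hp0 : p ≠ 0 := left_ne_zero_of_mul h0
    have h1 : b < n := lt_of_le_of_lt (Nat.le_mul_of_pos_left b (Nat.pos_of_ne_zero hp0)) hlt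
    have h2 : p < n := lt_of_le_of_lt (Nat.le_mul_of_pos_right p (Nat.pos_of_ne_zero hb0)) hlt
    rw [un_mul hp0 hb0, sy_mul_right, ih hb0 h1, zn_left h hp h2 a ha han, add_zero]

theorem zn_step {q : ℕ} (hq : q.Prime) (h : Zn q) {u v : ℕ} (hu : u ≠ 0) (huq : u < q)
    (hv : v ≠ 0) (hvq : v < q) :
    sy (un ((u * v) % q)) (un q) = sy (un u) (un q) + sy (un v) (un q) := by
  set w : ℕ := (u * v) % q with hw
  set k : ℕ := (u * v) / q with hk
  have hdm : q * k + w = u * v := Nat.div_add_mod (u * v) q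
  have hwq : w < q := Nat.mod_lt _ hq.pos
  have hw0 : w ≠ 0 := by
    intro h0
    have hd : q ∣ u * v := Nat.dvd_of_mod_eq_zero h0
    rcases (Nat.Prime.dvd_mul hq).1 hd with h1 | h1
    · exact absurd (Nat.le_of_dvd (Nat.pos_of_ne_zero hu) h1) (not_le.2 huq)
    · exact absurd (Nat.le_of_dvd (Nat.pos_of_ne_zero hv) h1) (not_le.2 hvq)
  have huv0 : u * v ≠ 0 := mul_ne_zero hu hv
  rw [← sy_mul_left, ← un_mul hu hv]
  by_cases hk0 : k = 0
  · rw [hk0, mul_zero, zero_add] at hdm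
    rw [hdm]
  · have hkq : k < q := by
      rw [hk, Nat.div_lt_iff_lt_mul hq.pos]
      exact Nat.mul_lt_mul'' huq hvq
    have hq0 : q ≠ 0 := hq.ne_zero
    set x : ℚˣ := un (u * v) with hx
    have hxv : (x : ℚ) = ((u * v : ℕ) : ℚ) := un_val huv0
    have hx0 : (x : ℚ) ≠ 0 := x.ne_zero
    have hst : sy (un w * x⁻¹) (un q * un k * x⁻¹) = 0 := by
      apply sy_steinberg
      rw [Units.val_mul, Units.val_mul, Units.val_mul, Units.val_inv_eq_inv_val, un_val hw0,
        un_val hq0, un_val hk0, ← add_mul, ← div_eq_mul_inv, div_eq_one_iff_eq hx0, hxv, ← hdm]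
      push_cast
      ring
    have e1 : sy (un w) (un k) = 0 := zn_both h hw0 hwq k hk0 hkq
    have e2 : sy (un w) x = 0 := by
      rw [hx, un_mul hu hv, sy_mul_right, zn_both h hw0 hwq u hu huq,
        zn_both h hw0 hwq v hv hvq, add_zero]
    have e3 : sy x (un k) = 0 := by
      rw [hx, un_mul hu hv, sy_mul_left, zn_both h hu huq k hk0 hkq,
        zn_both h hv hvq k hk0 hkq, add_zero]
    rw [sy_mul_left, sy_mul_right, sy_mul_right, sy_mul_right, sy_mul_right, sy_inv_left,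
      sy_inv_left, sy_inv_left, sy_inv_right, sy_inv_right, sy_self, e1, e2, e3] at hst
    have h5 : sy (un w) (un q) - sy x (un q) = 0 := by
      rw [← hst]
      simp [sub_eq_add_neg]
    exact sub_eq_zero.1 h5

theorem zn_prime {q : ℕ} (hq : q.Prime) (h : Zn q) {u : ℕ} (hu : u ≠ 0) (huq : u < q) :
    sy (un u) (un q) = 0 := by
  have hpow : ∀ m : ℕ, sy (un (u ^ m % q)) (un q) = (m : ℚ) • sy (un u) (un q) := by
    intro m
    induction m with
    | zero =>
      rw [pow_zero, Nat.mod_eq_of_lt hq.one_lt, un_one, sy_one_left, Nat.cast_zero, zero_smul]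
    | succ m ih =>
      have h0 : u ^ m % q ≠ 0 := by
        intro h0
        have hd : q ∣ u ^ m := Nat.dvd_of_mod_eq_zero h0
        have h1 := hq.dvd_of_dvd_pow hd
        exact absurd (Nat.le_of_dvd (Nat.pos_of_ne_zero hu) h1) (not_le.2 huq)
      have e : u ^ (m + 1) % q = (u ^ m % q * u) % q := by
        rw [pow_succ]
        exact (Nat.ModEq.mul_right u (Nat.mod_modEq (u ^ m) q)).symm
      rw [e, zn_step hq h h0 (Nat.mod_lt _ hq.pos) hu huq, ih, Nat.cast_succ, add_smul, one_smul]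
  have hco : Nat.Coprime u q := by
    rw [Nat.coprime_comm, Nat.Prime.coprime_iff_not_dvd hq]
    intro h1
    exact absurd (Nat.le_of_dvd (Nat.pos_of_ne_zero hu) h1) (not_le.2 huq)
  have hf : u ^ (q - 1) % q = 1 := by
    have h1 := Nat.ModEq.pow_totient hco
    rw [Nat.totient_prime hq] at h1
    rw [Nat.ModEq, Nat.mod_eq_of_lt hq.one_lt] at h1
    exact h1
  have h1 := hpow (q - 1)
  rw [hf, un_one, sy_one_left] at h1
  refine eq_zero_of_two_smul (k := ((q - 1 : ℕ) : ℚ)) ?_ h1.symm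
  have := hq.two_le
  exact Nat.cast_ne_zero.2 (by omega)

theorem zn_all (n : ℕ) : Zn n := by
  induction n with
  | zero => intro p r _ _ h _; exact absurd h (Nat.not_lt_zero _)
  | succ q ih =>
    intro p r hp hr hpq hrq
    rcases Nat.lt_succ_iff_lt_or_eq.1 hpq with h1 | h1
    · rcases Nat.lt_succ_iff_lt_or_eq.1 hrq with h2 | h2
      · exact ih p r hp hr h1 h2
      · subst h2
        exact zn_prime hr ih hp.ne_zero h1
    · subst h1
      rcases Nat.lt_succ_iff_lt_or_eq.1 hrq with h2 | h2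
      · rw [sy_swap, zn_prime hp ih hr.ne_zero h2, neg_zero]
      · subst h2
        exact sy_self _

theorem sy_un {a b : ℕ} (ha : a ≠ 0) (hb : b ≠ 0) : sy (un a) (un b) = 0 :=
  zn_both (zn_all (max a b + 1)) ha (by omega) b hb (by omega)

/-- Every unit of `ℚ` is `± a / b`. -/
theorem exists_un (x : ℚˣ) : ∃ a b : ℕ, a ≠ 0 ∧ b ≠ 0 ∧
    (x = un a * (un b)⁻¹ ∨ x = -(un a * (un b)⁻¹)) := by
  have hx : (x : ℚ) ≠ 0 := x.ne_zero
  have hn : (x : ℚ).num ≠ 0 := Rat.num_ne_zero.2 hx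
  refine ⟨(x : ℚ).num.natAbs, (x : ℚ).den, Int.natAbs_ne_zero.2 hn, (x : ℚ).den_nz, ?_⟩
  have h0 : (x : ℚ) = (x : ℚ).num / (x : ℚ).den := (Rat.num_div_den _).symm
  rcases Int.natAbs_eq (x : ℚ).num with h | h
  · left
    apply Units.ext
    rw [Units.val_mul, Units.val_inv_eq_inv_val, un_val (Int.natAbs_ne_zero.2 hn),
      un_val (x : ℚ).den_nz, ← div_eq_mul_inv]
    have h2 : (((x : ℚ).num.natAbs : ℕ) : ℚ) = ((x : ℚ).num : ℚ) := by
      rw [← Int.cast_natCast, ← h]
    rw [h2]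
    exact h0
  · right
    apply Units.ext
    rw [Units.val_neg, Units.val_mul, Units.val_inv_eq_inv_val,
      un_val (Int.natAbs_ne_zero.2 hn), un_val (x : ℚ).den_nz, ← div_eq_mul_inv]
    have h2 : (((x : ℚ).num.natAbs : ℕ) : ℚ) = -((x : ℚ).num : ℚ) := by
      rw [← Int.cast_natCast, ← Int.cast_neg]
      congr 1
      omega
    rw [h2, neg_div, neg_neg]
    exact h0

theorem sy_rat (x y : ℚˣ) : sy x y = 0 := by
  obtain ⟨a, b, ha, hb, h⟩ := exists_un x
  obtain ⟨c, d, hc, hd, h'⟩ := exists_un y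
  have key : sy (un a * (un b)⁻¹) (un c * (un d)⁻¹) = 0 := by
    rw [sy_mul_left, sy_mul_right, sy_mul_right, sy_inv_left, sy_inv_left, sy_inv_right,
      sy_inv_right, sy_un ha hc, sy_un ha hd, sy_un hb hc, sy_un hb hd]
    simp
  rcases h with h | h <;> rcases h' with h' | h' <;> rw [h, h'] <;>
    simp only [sy_neg_left, sy_neg_right, key]

variable {L : Type*} [Field L]

/-- A constant of a field of characteristic zero as a unit. -/
noncomputable def qc (f : ℚ →+* L) (x : ℚˣ) : Lˣ := Units.map (f : ℚ →* L) x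

theorem sy_qc (f : ℚ →+* L) (x y : ℚˣ) : sy (qc f x) (qc f y) = 0 := by
  have h := congrArg (KQ.map 2 f) (sy_rat x y)
  rw [map_zero] at h
  rw [← h]
  exact (map_sy f x y).symm

end Pool.Agent.Helper537_Sym
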