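import Pool.Agent.Helper537_Sym.Iso
set_option autoImplicit false

/-!
The numerical criteria for the polynomials `F = t + lam ∏ (x - b_i)`.
-/

namespace Pool.Agent.Helper537_Sym

open Polynomial

open Pool.Agent.TH826.UH

variable {g : ℕ} {b : Fin (g + 1) → ℤ}

/-- the distances, reduced by `ρ` -/
noncomputable def dd (b : Fin (g + 1) → ℤ) (ρ : ℝ) (i j : Fin (g + 1)) : ℝ :=
  |(b i : ℝ) - b j| - ρ

theorem one_le_dist (hb : Function.Injective b) {i j : Fin (g + 1)} (h : i ≠ j) :
    (1 : ℝ) ≤ |(b i : ℝ) - b j| := by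
  have h1 : (1 : ℤ) ≤ |b i - b j| := Int.one_le_abs (sub_ne_zero.2 (hb.ne h))
  exact_mod_cast h1

theorem crit17 (hb : Function.Injective b) {L : ℝ} (hL : 17 ≤ L) (p q : Fin (g + 1))
    (hpq : p ≠ q) :
    0 ≤ Real.log L + Real.log (dd b (1 / 2) p q) + Real.log (dd b (1 / 2) q p) +
      ∑ j ∈ (Finset.univ.erase p).erase q,
        Real.log (min (dd b (1 / 2) p j) (dd b (1 / 2) q j)) := by
  set c : Fin (g + 1) → Fin (g + 1) → ℝ := fun i j =>
    if |b i - b j| = 1 then Real.log 2 else 0 with hc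
  have hlog2 : 0 < Real.log 2 := Real.log_pos (by norm_num)
  have hcnn : ∀ i j, 0 ≤ c i j := by
    intro i j
    rw [hc]
    dsimp only
    split_ifs
    · exact hlog2.le
    · exact le_rfl
  have hdpos : ∀ i j, i ≠ j → 0 < dd b (1 / 2) i j := by
    intro i j h
    have := one_le_dist hb h
    unfold dd
    linarith
  have hd : ∀ i j, i ≠ j → -c i j ≤ Real.log (dd b (1 / 2) i j) := by
    intro i j h
    rw [hc]
    dsimp only
    have h1 := one_le_dist hb h
    split_ifs with h2
    · rw [← Real.log_inv]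
      refine Real.log_le_log (by norm_num) ?_
      unfold dd
      linarith
    · rw [neg_zero]
      refine Real.log_nonneg ?_
      have h3 : (1 : ℤ) ≤ |b i - b j| := Int.one_le_abs (sub_ne_zero.2 (hb.ne h))
      have h4 : (2 : ℤ) ≤ |b i - b j| := by omega
      have h5 : (2 : ℝ) ≤ |(b i : ℝ) - b j| := by exact_mod_cast h4
      unfold dd
      linarith
  have hsum : ∀ i, ∑ j ∈ Finset.univ.erase i, c i j ≤ 2 * Real.log 2 := by
    intro i
    have h1 : ∑ j ∈ Finset.univ.erase i, c i j =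
        (((Finset.univ.erase i).filter fun j => |b i - b j| = 1).card : ℝ) * Real.log 2 := by
      rw [hc]
      dsimp only
      rw [← Finset.sum_filter, Finset.sum_const, nsmul_eq_mul]
    have h2 : ((Finset.univ.erase i).filter fun j => |b i - b j| = 1).card ≤ 2 := by
      have h3 : (((Finset.univ.erase i).filter fun j => |b i - b j| = 1).image b) ⊆
          {b i - 1, b i + 1} := by
        intro y hy
        obtain ⟨j, hj, rfl⟩ := Finset.mem_image.1 hy
        have h4 := (Finset.mem_filter.1 hj).2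
        rw [Finset.mem_insert, Finset.mem_singleton]
        rcases abs_cases (b i - b j) with ⟨h5, -⟩ | ⟨h5, -⟩ <;> omega
      rw [← Finset.card_image_of_injective _ hb]
      exact (Finset.card_le_card h3).trans Finset.card_le_two
    rw [h1]
    refine mul_le_mul_of_nonneg_right ?_ hlog2.le
    exact_mod_cast h2
  have hE : ∑ j ∈ (Finset.univ.erase p).erase q, (-c p j - c q j) ≤
      ∑ j ∈ (Finset.univ.erase p).erase q,
        Real.log (min (dd b (1 / 2) p j) (dd b (1 / 2) q j)) := by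
    refine Finset.sum_le_sum fun j hj => ?_
    have hjq : q ≠ j := (Finset.ne_of_mem_erase hj).symm
    have hjp : p ≠ j := (Finset.ne_of_mem_erase (Finset.mem_of_mem_erase hj)).symm
    have h1 := hd p j hjp
    have h2 := hd q j hjq
    have h3 := hcnn p j
    have h4 := hcnn q j
    rcases min_choice (dd b (1 / 2) p j) (dd b (1 / 2) q j) with h | h
    · rw [h]; linarith
    · rw [h]; linarith
  have hp : ∑ j ∈ Finset.univ.erase p, c p j =
      c p q + ∑ j ∈ (Finset.univ.erase p).erase q, c p j :=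
    (Finset.add_sum_erase _ _ (Finset.mem_erase.2 ⟨hpq.symm, Finset.mem_univ _⟩)).symm
  have hq : ∑ j ∈ Finset.univ.erase q, c q j =
      c q p + ∑ j ∈ (Finset.univ.erase p).erase q, c q j := by
    rw [Finset.erase_right_comm]
    exact (Finset.add_sum_erase _ _ (Finset.mem_erase.2 ⟨hpq, Finset.mem_univ _⟩)).symm
  have h16 : Real.log 16 = 4 * Real.log 2 := by
    rw [show (16 : ℝ) = 2 ^ 4 by norm_num, Real.log_pow]
    push_cast
    ring
  have hL16 : Real.log 16 ≤ Real.log L := Real.log_le_log (by norm_num) (by linarith)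
  have h1 := hsum p
  have h2 := hsum q
  have h3 := hd p q hpq
  have h4 := hd q p hpq.symm
  rw [Finset.sum_sub_distrib, Finset.sum_neg_distrib] at hE
  linarith

theorem critD {D : ℝ} (hD : 2 ≤ D) (hsep : ∀ i j, i ≠ j → D ≤ |(b i : ℝ) - b j|) {L : ℝ}
    (hL : 1 ≤ L) (p q : Fin (g + 1)) (hpq : p ≠ q) :
    0 ≤ Real.log L + Real.log (dd b (D / 2) p q) + Real.log (dd b (D / 2) q p) +
      ∑ j ∈ (Finset.univ.erase p).erase q,
        Real.log (min (dd b (D / 2) p j) (dd b (D / 2) q j)) := by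
  have hd : ∀ i j, i ≠ j → 1 ≤ dd b (D / 2) i j := by
    intro i j h
    have := hsep i j h
    unfold dd
    linarith
  have h1 := Real.log_nonneg hL
  have h2 := Real.log_nonneg (hd p q hpq)
  have h3 := Real.log_nonneg (hd q p hpq.symm)
  have h4 : 0 ≤ ∑ j ∈ (Finset.univ.erase p).erase q,
        Real.log (min (dd b (D / 2) p j) (dd b (D / 2) q j)) := by
    refine Finset.sum_nonneg fun j hj => Real.log_nonneg ?_
    have hjq : q ≠ j := (Finset.ne_of_mem_erase hj).symm
    have hjp : p ≠ j := (Finset.ne_of_mem_erase (Finset.mem_of_mem_erase hj)).symm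
    exact le_min (hd p j hjp) (hd q j hjq)
  linarith

/-- The integers different from the `b_i` are not special. -/
theorem five_le (hb : Function.Injective b) {lam : ℤ} (hlam : lam ≠ 0)
    (h : 6 ≤ g ∨ 17 ≤ |lam|) {c : ℤ} (hc : ∀ i, b i ≠ c) : 5 ≤ |lam * ∏ i, (c - b i)| := by
  have hne : ∀ i, c - b i ≠ 0 := fun i => sub_ne_zero.2 (Ne.symm (hc i))
  have hP : ∏ i, (c - b i) ≠ 0 := Finset.prod_ne_zero_iff.2 fun i _ => hne i
  have hP1 : 1 ≤ |∏ i, (c - b i)| := Int.one_le_abs hP
  have hl1 : 1 ≤ |lam| := Int.one_le_abs hlam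
  rw [abs_mul]
  rcases h with hg | h17
  · have h1 := Pool.Agent.Y94.UG.prod_dist hg hb (x := (c : ℂ)) (fun i => by
      rw [← Int.cast_sub, Complex.norm_intCast]
      have h2 : (1 : ℝ) ≤ |((c - b i : ℤ) : ℝ)| := by
        have h3 := Int.one_le_abs (hne i)
        exact_mod_cast h3
      linarith)
    have h2 : ∏ i, ‖(c : ℂ) - (b i : ℂ)‖ = ((|∏ i, (c - b i)| : ℤ) : ℝ) := by
      rw [Finset.abs_prod, Int.cast_prod]
      refine Finset.prod_congr rfl fun i _ => ?_
      rw [← Int.cast_sub, Complex.norm_intCast, Int.cast_abs]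
    rw [h2] at h1
    have h3 : (4 : ℝ) < ((|∏ i, (c - b i)| : ℤ) : ℝ) := by linarith
    have h4 : (4 : ℤ) < |∏ i, (c - b i)| := by exact_mod_cast h3
    nlinarith
  · nlinarith

end Pool.Agent.Helper537_Sym
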