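import Pool.Agent.TH826.MK.Milnor
set_option autoImplicit false

/-!
Elementary rules for the symbols `{u, v}` in `K_2^M(L) ⊗ ℚ` of a field `L`.
-/

namespace Pool.Agent.Helper537_Sym

open Pool.Agent.TH826.MK (KQ symb symb_update_mul symb_update_zpow symb_eq_zero')

variable {L : Type*} [Field L]

/-- The symbol `{u, v}`. -/
noncomputable def sy (u v : Lˣ) : KQ L 2 := symb ![u, v]

theorem upd0 {α : Type*} (u v x : α) : Function.update ![u, v] 0 x = ![x, v] := by
  funext i
  fin_cases i <;> simp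

theorem upd1 {α : Type*} (u v x : α) : Function.update ![u, v] 1 x = ![u, x] := by
  funext i
  fin_cases i <;> simp

theorem sy_mul_left (u u' v : Lˣ) : sy (u * u') v = sy u v + sy u' v := by
  have h := symb_update_mul ![u, v] 0 u u'
  rwa [upd0, upd0, upd0] at h

theorem sy_mul_right (u v v' : Lˣ) : sy u (v * v') = sy u v + sy u v' := by
  have h := symb_update_mul ![u, v] 1 v v'
  rwa [upd1, upd1, upd1] at h

theorem sy_zpow_left (u v : Lˣ) (k : ℤ) : sy (u ^ k) v = (k : ℚ) • sy u v := by
  have h := symb_update_zpow ![u, v] 0 u k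
  rwa [upd0, upd0] at h

theorem sy_zpow_right (u v : Lˣ) (k : ℤ) : sy u (v ^ k) = (k : ℚ) • sy u v := by
  have h := symb_update_zpow ![u, v] 1 v k
  rwa [upd1, upd1] at h

theorem sy_pow_left (u v : Lˣ) (k : ℕ) : sy (u ^ k) v = (k : ℚ) • sy u v := by
  have h := sy_zpow_left u v k
  rwa [zpow_natCast, Int.cast_natCast] at h

theorem sy_pow_right (u v : Lˣ) (k : ℕ) : sy u (v ^ k) = (k : ℚ) • sy u v := by
  have h := sy_zpow_right u v k
  rwa [zpow_natCast, Int.cast_natCast] at h

theorem sy_one_left (v : Lˣ) : sy 1 v = 0 := by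
  have h := sy_pow_left 1 v 0
  rwa [pow_zero, Nat.cast_zero, zero_smul] at h

theorem sy_one_right (u : Lˣ) : sy u 1 = 0 := by
  have h := sy_pow_right u 1 0
  rwa [pow_zero, Nat.cast_zero, zero_smul] at h

theorem sy_inv_left (u v : Lˣ) : sy u⁻¹ v = -sy u v := by
  have h := sy_mul_left u u⁻¹ v
  rw [mul_inv_cancel, sy_one_left] at h
  exact (neg_eq_of_add_eq_zero_right h.symm).symm

theorem sy_inv_right (u v : Lˣ) : sy u v⁻¹ = -sy u v := by
  have h := sy_mul_right u v v⁻¹
  rw [mul_inv_cancel, sy_one_right] at h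
  exact (neg_eq_of_add_eq_zero_right h.symm).symm

theorem sy_steinberg {u v : Lˣ} (h : (u : L) + v = 1) : sy u v = 0 :=
  symb_eq_zero' ![u, v] (i := 0) (j := 1) (by decide) h

theorem eq_zero_of_two_smul {V : Type*} [AddCommGroup V] [Module ℚ V] {x : V} {k : ℚ}
    (hk : k ≠ 0) (h : k • x = 0) : x = 0 := by
  have h2 := congrArg (fun y => k⁻¹ • y) h
  simpa [smul_smul, inv_mul_cancel₀ hk] using h2

theorem sy_neg_one_right (u : Lˣ) : sy u (-1) = 0 := by
  refine eq_zero_of_two_smul (k := 2) two_ne_zero ?_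
  have h := sy_pow_right u (-1) 2
  rw [neg_one_sq, sy_one_right, Nat.cast_two] at h
  exact h.symm

theorem sy_neg_one_left (u : Lˣ) : sy (-1) u = 0 := by
  refine eq_zero_of_two_smul (k := 2) two_ne_zero ?_
  have h := sy_pow_left (-1) u 2
  rw [neg_one_sq, sy_one_left, Nat.cast_two] at h
  exact h.symm

theorem sy_neg_right (u v : Lˣ) : sy u (-v) = sy u v := by
  rw [← neg_one_mul, sy_mul_right, sy_neg_one_right, zero_add]

theorem sy_neg_left (u v : Lˣ) : sy (-u) v = sy u v := by
  rw [← neg_one_mul, sy_mul_left, sy_neg_one_left, zero_add]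

theorem sy_self (u : Lˣ) : sy u u = 0 := by
  by_cases h1 : (u : L) = 1
  · have h2 : u = 1 := Units.ext h1
    rw [h2, sy_one_left]
  · have hu : (u : L) ≠ 0 := u.ne_zero
    have ha : (1 : L) - u ≠ 0 := sub_ne_zero.2 (Ne.symm h1)
    have hb : (1 : L) - (u : L)⁻¹ ≠ 0 := by
      intro h
      rw [sub_eq_zero, eq_comm, inv_eq_one] at h
      exact h1 h
    set a : Lˣ := Units.mk0 _ ha with haa
    set b : Lˣ := Units.mk0 _ hb with hbb
    have e : -u = a * b⁻¹ := by
      apply Units.ext
      rw [Units.val_neg, Units.val_mul, Units.val_inv_eq_inv_val, haa, hbb, Units.val_mk0,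
        Units.val_mk0, ← div_eq_mul_inv, eq_div_iff hb]
      field_simp
      ring
    have h2 : sy u a = 0 := sy_steinberg (by rw [haa, Units.val_mk0]; ring)
    have h3 : sy u⁻¹ b = 0 := sy_steinberg (by
      rw [hbb, Units.val_mk0, Units.val_inv_eq_inv_val]; ring)
    rw [sy_inv_left, neg_eq_zero] at h3
    rw [← sy_neg_right, e, sy_mul_right, sy_inv_right, h2, h3, neg_zero, add_zero]

theorem sy_swap (u v : Lˣ) : sy u v = -sy v u := by
  have h := sy_self (u * v)
  rw [sy_mul_left, sy_mul_right, sy_mul_right, sy_self, sy_self, zero_add, add_zero] at h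
  exact eq_neg_of_add_eq_zero_left h

theorem sy_prod_left {ι : Type*} (s : Finset ι) (u : ι → Lˣ) (v : Lˣ) :
    sy (∏ i ∈ s, u i) v = ∑ i ∈ s, sy (u i) v := by
  classical
  induction s using Finset.induction_on with
  | empty => rw [Finset.prod_empty, Finset.sum_empty, sy_one_left]
  | insert i s hi ih => rw [Finset.prod_insert hi, Finset.sum_insert hi, sy_mul_left, ih]

theorem sy_prod_right {ι : Type*} (s : Finset ι) (u : Lˣ) (v : ι → Lˣ) :
    sy u (∏ i ∈ s, v i) = ∑ i ∈ s, sy u (v i) := by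
  classical
  induction s using Finset.induction_on with
  | empty => rw [Finset.prod_empty, Finset.sum_empty, sy_one_right]
  | insert i s hi ih => rw [Finset.prod_insert hi, Finset.sum_insert hi, sy_mul_right, ih]

theorem map_sy {A : Type*} [CommRing A] (f : A →+* L) (u v : Aˣ) :
    KQ.map 2 f (symb ![u, v]) = sy (Units.map (f : A →* L) u) (Units.map (f : A →* L) v) := by
  rw [KQ.map_symb]
  unfold sy
  congr 1
  funext i
  fin_cases i <;> rfl

/-- the elements of `Fin 2 → Aˣ` -/
theorem eq_cons {α : Type*} (a : Fin 2 → α) : a = ![a 0, a 1] := by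
  funext i
  fin_cases i <;> rfl

end Pool.Agent.Helper537_Sym
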