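import Pool.Agent.Helper537_Sym.KtwoQ
set_option autoImplicit false

/-!
Functionals on `K_2^M(L) ⊗ ℚ` which factor over the tame symbol of a discrete valuation.
-/

namespace Pool.Agent.Helper537_Sym

open scoped WithZero
open Pool.Agent.TH826.MK (KQ symb unitPart Unramified)

variable {L : Type*} [Field L]

/-- The (logarithmic) order of a unit. -/
noncomputable def ord (v : Valuation L ℤᵐ⁰) (a : Lˣ) : ℤ := WithZero.log (v (a : L))

theorem v_ne (v : Valuation L ℤᵐ⁰) (a : Lˣ) : v (a : L) ≠ 0 :=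
  (Valuation.ne_zero_iff v).2 a.ne_zero

theorem ord_mul (v : Valuation L ℤᵐ⁰) (a b : Lˣ) : ord v (a * b) = ord v a + ord v b := by
  unfold ord
  rw [Units.val_mul, map_mul, WithZero.log_mul (v_ne v a) (v_ne v b)]

theorem ord_of_one {v : Valuation L ℤᵐ⁰} {a : Lˣ} (h : v (a : L) = 1) : ord v a = 0 := by
  unfold ord
  rw [h, WithZero.log_one]

theorem ord_eq_zero {v : Valuation L ℤᵐ⁰} {a : Lˣ} (h : ord v a = 0) : v (a : L) = 1 := by
  unfold ord at h
  rw [← WithZero.exp_log (v_ne v a), h, WithZero.exp_zero]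

theorem ord_congr {v : Valuation L ℤᵐ⁰} {a b : Lˣ} (h : v (a : L) = v (b : L)) :
    ord v a = ord v b := by
  unfold ord
  rw [h]

/-- A function on the units which is additive. -/
structure Lg (L : Type*) [Field L] where
  /-- the function -/
  toFun : Lˣ → ℚ
  map_mul' : ∀ a b, toFun (a * b) = toFun a + toFun b

theorem Lg.neg_one (l : Lg L) : l.toFun (-1) = 0 := by
  have h1 : l.toFun 1 = 0 := by
    have := l.map_mul' 1 1
    rw [one_mul] at this
    linarith
  have h2 := l.map_mul' (-1) (-1)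
  rw [neg_mul_neg, one_mul, h1] at h2
  linarith

/-- The tame functional. -/
noncomputable def tame (v : Valuation L ℤᵐ⁰) (l : Lg L)
    (hl : ∀ a : Lˣ, v ((a : L) - 1) < 1 → l.toFun a = 0) : KQ L 2 →ₗ[ℚ] ℚ :=
  KQ.lift (fun a => (ord v (a 1) : ℚ) * l.toFun (a 0) - (ord v (a 0) : ℚ) * l.toFun (a 1))
    (by
      intro a i x y
      fin_cases i <;>
        simp [ord_mul, l.map_mul'] <;> ring)
    (by
      rintro a ⟨i, j, hij, h⟩
      have hi : i = 0 := by
        fin_cases i
        · rfl
        · fin_cases j <;> simp at hij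
      have hj : j = 1 := by
        subst hi
        fin_cases j
        · simp at hij
        · rfl
      subst hi hj
      rcases lt_trichotomy (v (a 0 : L)) 1 with h0 | h0 | h0
      · have e : ((a 1 : L)) - 1 = -(a 0 : L) := by rw [← h]; ring
        have h1 : v ((a 1 : L) - 1) < 1 := by rw [e, Valuation.map_neg]; exact h0
        rw [hl _ h1, ord_of_one (Pool.Agent.TH826.MK.val_one_of_sub_one h1)]
        simp
      · rcases lt_trichotomy (v (a 1 : L)) 1 with h1 | h1 | h1
        · have e : ((a 0 : L)) - 1 = -(a 1 : L) := by rw [← h]; ring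
          have h2 : v ((a 0 : L) - 1) < 1 := by rw [e, Valuation.map_neg]; exact h1
          rw [hl _ h2, ord_of_one h0]
          simp
        · rw [ord_of_one h0, ord_of_one h1]
          simp
        · exfalso
          have e : (a 1 : L) = 1 - (a 0 : L) := by rw [← h]; ring
          have h2 : v (a 1 : L) ≤ max (v 1) (v (a 0 : L)) := by
            rw [e]; exact Valuation.map_sub v 1 _
          rw [map_one, h0, max_self] at h2
          exact absurd h1 (not_lt.2 h2)
      · have e : (a 1 : L) = 1 - (a 0 : L) := by rw [← h]; ring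
        have h2 : v (a 1 : L) = v (a 0 : L) := by
          rw [e]
          apply Valuation.map_sub_eq_of_lt_right
          rw [map_one]
          exact h0
        have h3 : l.toFun (a 1) = l.toFun (a 0) := by
          have e2 : a 1 = -1 * (a 0 * (-(a 1) * (a 0)⁻¹)) := by
            rw [mul_comm (-(a 1)) (a 0)⁻¹, mul_inv_cancel_left, neg_one_mul, neg_neg]
          have h4 : v (((-(a 1) * (a 0)⁻¹ : Lˣ) : L) - 1) < 1 := by
            have e3 : ((-(a 1) * (a 0)⁻¹ : Lˣ) : L) - 1 = -(a 0 : L)⁻¹ := by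
              rw [Units.val_mul, Units.val_neg, Units.val_inv_eq_inv_val, e]
              have := (a 0).ne_zero
              field_simp
              ring
            rw [e3, Valuation.map_neg, map_inv₀]
            exact inv_lt_one_of_one_lt₀ h0
          rw [e2, l.map_mul', l.map_mul', l.neg_one, hl _ h4]
          ring
        rw [h3, ord_congr h2]
        ring)

theorem tame_sy (v : Valuation L ℤᵐ⁰) (l : Lg L)
    (hl : ∀ a : Lˣ, v ((a : L) - 1) < 1 → l.toFun a = 0) (a b : Lˣ) :
    tame v l hl (sy a b) = (ord v b : ℚ) * l.toFun a - (ord v a : ℚ) * l.toFun b := by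
  unfold tame sy
  rw [KQ.lift_symb]
  rfl

theorem tame_unitPart (v : Valuation L ℤᵐ⁰) (l : Lg L)
    (hl : ∀ a : Lˣ, v ((a : L) - 1) < 1 → l.toFun a = 0) {z : KQ L 2}
    (hz : z ∈ unitPart v 2) : tame v l hl z = 0 := by
  have h : unitPart v 2 ≤ LinearMap.ker (tame v l hl) := by
    unfold unitPart
    rw [Submodule.span_le]
    rintro z ⟨a, ha, rfl⟩
    show tame v l hl _ = 0
    have e : symb a = sy (a 0) (a 1) := by
      unfold sy
      rw [← eq_cons]
    rw [e, tame_sy, ord_of_one (ha 0), ord_of_one (ha 1)]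
    simp
  exact h hz

/-- The one-units. -/
def oneUnits (v : Valuation L ℤᵐ⁰) : Subgroup Lˣ where
  carrier := {a | v ((a : L) - 1) < 1}
  one_mem' := by simp
  mul_mem' := by
    intro a b ha hb
    show v (((a * b : Lˣ) : L) - 1) < 1
    have ha' : v ((a : L) - 1) < 1 := ha
    have hb' : v ((b : L) - 1) < 1 := hb
    have e : ((a * b : Lˣ) : L) - 1 = (a : L) * ((b : L) - 1) + ((a : L) - 1) := by
      rw [Units.val_mul]; ring
    rw [e]
    refine Valuation.map_add_lt v ?_ ha'
    rw [map_mul, Pool.Agent.TH826.MK.val_one_of_sub_one ha', one_mul]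
    exact hb'
  inv_mem' := by
    intro a ha
    show v (((a⁻¹ : Lˣ) : L) - 1) < 1
    have ha' : v ((a : L) - 1) < 1 := ha
    have e : ((a⁻¹ : Lˣ) : L) - 1 = (a : L)⁻¹ * -((a : L) - 1) := by
      rw [Units.val_inv_eq_inv_val]
      have := a.ne_zero
      field_simp
      ring
    rw [e, map_mul, map_inv₀, Pool.Agent.TH826.MK.val_one_of_sub_one ha', inv_one, one_mul,
      Valuation.map_neg]
    exact ha'

/-- An additive function on the constants extends to an additive function on all units which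
vanishes on the one-units. -/
theorem exists_lg (v : Valuation L ℤᵐ⁰) (f : ℚ →+* L) (hf : ∀ q : ℚˣ, v (f q) = 1)
    (χ : ℚˣ → ℚ) (hχ : ∀ a b, χ (a * b) = χ a + χ b) :
    ∃ l : Lg L, (∀ a : Lˣ, v ((a : L) - 1) < 1 → l.toFun a = 0) ∧
      ∀ q : ℚˣ, l.toFun (qc f q) = χ q := by
  have hχ1 : χ 1 = 0 := by
    have := hχ 1 1
    rw [one_mul] at this
    linarith
  let φ : (oneUnits v) × ℚˣ →* Lˣ :=
    ((oneUnits v).subtype.comp (MonoidHom.fst _ _)) *
      ((Units.map (f : ℚ →* L)).comp (MonoidHom.snd _ _))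
  have hφ : ∀ p : (oneUnits v) × ℚˣ, φ p = (p.1 : Lˣ) * qc f p.2 := fun p => rfl
  have hinj : Function.Injective φ := by
    rw [injective_iff_map_eq_one]
    rintro ⟨u, q⟩ h
    rw [hφ] at h
    have h1 : qc f q = ((u⁻¹ : oneUnits v) : Lˣ) := by
      have h2 : (u : Lˣ) * qc f q = 1 := h
      rw [Subgroup.coe_inv]
      exact (inv_eq_of_mul_eq_one_right h2).symm
    have h2 : v (((qc f q : Lˣ) : L) - 1) < 1 := by
      rw [h1]
      exact (u⁻¹).2
    have hq : q = 1 := by
      by_contra hne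
      have h3 : (q : ℚ) - 1 ≠ 0 := by
        intro h4
        exact hne (Units.ext (sub_eq_zero.1 h4))
      have h4 := hf (Units.mk0 _ h3)
      rw [Units.val_mk0, map_sub, map_one] at h4
      have h5 : ((qc f q : Lˣ) : L) = f q := rfl
      rw [h5, h4] at h2
      exact lt_irrefl _ h2
    subst hq
    have h3 : qc f 1 = 1 := by unfold qc; rw [map_one]
    have h4 : (u : Lˣ) = 1 := by
      have h2 : (u : Lˣ) * qc f 1 = 1 := h
      rwa [h3, mul_one] at h2
    ext
    · simp [h4]
    · rfl
  let g : Additive ((oneUnits v) × ℚˣ) →+ ℚ :=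
    { toFun := fun p => χ p.toMul.2
      map_zero' := hχ1
      map_add' := fun a b => hχ _ _ }
  obtain ⟨h, hh⟩ := Module.Baer.extension_property_addMonoidHom (Module.Baer.of_divisible ℚ)
    (MonoidHom.toAdditive φ) hinj g
  have key : ∀ p : (oneUnits v) × ℚˣ, h (Additive.ofMul (φ p)) = χ p.2 := fun p =>
    DFunLike.congr_fun hh (Additive.ofMul p)
  refine ⟨⟨fun a => h (Additive.ofMul a), fun a b => by rw [ofMul_mul, map_add]⟩, ?_, ?_⟩
  · intro a ha
    have h1 := key (⟨a, ha⟩, 1)
    rw [hφ] at h1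
    have h3 : qc f 1 = 1 := by unfold qc; rw [map_one]
    dsimp only at h1
    rw [h3, mul_one, hχ1] at h1
    exact h1
  · intro q
    have h1 := key (1, q)
    rw [hφ] at h1
    dsimp only at h1
    rw [Subgroup.coe_one, one_mul] at h1
    exact h1

/-- An additive function with prescribed values on the constants and at a unit `z`, no power of
which is a constant up to one-units, which vanishes on the one-units. -/
theorem exists_lg_z (v : Valuation L ℤᵐ⁰) (f : ℚ →+* L) (hf : ∀ q : ℚˣ, v (f q) = 1)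
    (z : Lˣ) (hz : ∀ (n : ℤ) (q : ℚˣ), v (((z ^ n * qc f q : Lˣ) : L) - 1) < 1 → n = 0) :
    ∃ l : Lg L, (∀ a : Lˣ, v ((a : L) - 1) < 1 → l.toFun a = 0) ∧
      (∀ q : ℚˣ, l.toFun (qc f q) = 0) ∧ l.toFun z = 1 := by
  let φ : ((oneUnits v) × ℚˣ) × Multiplicative ℤ →* Lˣ :=
    ((((oneUnits v).subtype.comp (MonoidHom.fst _ _)) *
      ((Units.map (f : ℚ →* L)).comp (MonoidHom.snd _ _))).comp (MonoidHom.fst _ _)) *
      ((zpowersHom Lˣ z).comp (MonoidHom.snd _ _))
  have hφ : ∀ p : ((oneUnits v) × ℚˣ) × Multiplicative ℤ,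
      φ p = (p.1.1 : Lˣ) * qc f p.1.2 * z ^ (Multiplicative.toAdd p.2) := fun p => rfl
  have h3 : qc f 1 = 1 := by unfold qc; rw [map_one]
  have hinj : Function.Injective φ := by
    rw [injective_iff_map_eq_one]
    rintro ⟨⟨u, q⟩, n⟩ h
    rw [hφ] at h
    dsimp only at h
    have h1 : z ^ (Multiplicative.toAdd n) * qc f q = ((u⁻¹ : oneUnits v) : Lˣ) := by
      rw [Subgroup.coe_inv]
      refine (inv_eq_of_mul_eq_one_right ?_).symm
      rw [← h]
      rw [mul_comm (z ^ _), mul_assoc]
    have h2 : v (((z ^ (Multiplicative.toAdd n) * qc f q : Lˣ) : L) - 1) < 1 := by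
      rw [h1]
      exact (u⁻¹).2
    have hn : Multiplicative.toAdd n = 0 := hz _ _ h2
    rw [hn, zpow_zero, one_mul] at h2
    have hq : q = 1 := by
      by_contra hne
      have h3 : (q : ℚ) - 1 ≠ 0 := by
        intro h4
        exact hne (Units.ext (sub_eq_zero.1 h4))
      have h4 := hf (Units.mk0 _ h3)
      rw [Units.val_mk0, map_sub, map_one] at h4
      have h5 : ((qc f q : Lˣ) : L) = f q := rfl
      rw [h5, h4] at h2
      exact lt_irrefl _ h2
    subst hq
    have h4 : (u : Lˣ) = 1 := by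
      rwa [hn, zpow_zero, mul_one, h3, mul_one] at h
    have h5 : n = 1 := hn
    ext
    · simp [h4]
    · rfl
    · rw [h5]; rfl
  let g : Additive (((oneUnits v) × ℚˣ) × Multiplicative ℤ) →+ ℚ :=
    { toFun := fun p => ((Multiplicative.toAdd p.toMul.2 : ℤ) : ℚ)
      map_zero' := Int.cast_zero
      map_add' := fun a b => Int.cast_add _ _ }
  obtain ⟨h, hh⟩ := Module.Baer.extension_property_addMonoidHom (Module.Baer.of_divisible ℚ)
    (MonoidHom.toAdditive φ) hinj g
  have key : ∀ p : ((oneUnits v) × ℚˣ) × Multiplicative ℤ,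
      h (Additive.ofMul (φ p)) = ((Multiplicative.toAdd p.2 : ℤ) : ℚ) := fun p =>
    DFunLike.congr_fun hh (Additive.ofMul p)
  refine ⟨⟨fun a => h (Additive.ofMul a), fun a b => by rw [ofMul_mul, map_add]⟩, ?_, ?_, ?_⟩
  · intro a ha
    have h1 := key ((⟨a, ha⟩, 1), 1)
    rw [hφ] at h1
    dsimp only at h1
    rw [h3, mul_one, toAdd_one, zpow_zero, mul_one, Int.cast_zero] at h1
    exact h1
  · intro q
    have h1 := key ((1, q), 1)
    rw [hφ] at h1
    dsimp only at h1
    rw [Subgroup.coe_one, one_mul, toAdd_one, zpow_zero, mul_one, Int.cast_zero] at h1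
    exact h1
  · have h1 := key ((1, 1), Multiplicative.ofAdd 1)
    rw [hφ] at h1
    dsimp only at h1
    rw [Subgroup.coe_one, one_mul, h3, one_mul, toAdd_ofAdd, zpow_one, Int.cast_one] at h1
    exact h1

end Pool.Agent.Helper537_Sym
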